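import Pool.Agent.Helper22_ND.Coro
import Pool.Agent.NDR.OpDefs

/-!
# The strictness lemma for the operators of `NDR/OpDefs.lean`

Laurent monomials `m : τ → ℤ` in a region `Rg`, operators `opA A c v`, `opB A c t v` for the
directions `v ∈ act`, filled coordinates `P`.
-/

set_option autoImplicit false
set_option linter.unusedSectionVars false
set_option linter.unusedVariables false

namespace Pool.Agent.ND.H22

open Finsupp
open Pool.Agent.NDR (opA opT opB pr)

section lin

variable {τ : Type} {R : Type} [CommRing R]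

/-- linear form of `opA` -/
noncomputable def opAl (A : Finset (τ → ℤ)) (c : (τ → ℤ) → R) (v : τ) :
    ((τ → ℤ) →₀ R) →ₗ[R] ((τ → ℤ) →₀ R) :=
  Finsupp.linearCombination R (fun e => ∑ a ∈ A, single (e + a) (c a * ((a v : ℤ) : R)))

/-- linear form of `opT` -/
noncomputable def opTl (t : τ → R) (v : τ) : ((τ → ℤ) →₀ R) →ₗ[R] ((τ → ℤ) →₀ R) :=
  Finsupp.linearCombination R (fun e => single e (((e v : ℤ) : R) + t v))

theorem opA_eq (A : Finset (τ → ℤ)) (c : (τ → ℤ) → R) (v : τ) (h : (τ → ℤ) →₀ R) :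
    opA A c v h = opAl A c v h := by
  unfold opA opAl
  rw [Finsupp.linearCombination_apply]
  unfold Finsupp.sum
  refine Finset.sum_congr rfl fun e _ => ?_
  beta_reduce
  rw [Finset.smul_sum]
  refine Finset.sum_congr rfl fun a _ => ?_
  rw [Finsupp.smul_single, smul_eq_mul, mul_comm]

theorem opT_eq (t : τ → R) (v : τ) (h : (τ → ℤ) →₀ R) : opT t v h = opTl t v h := by
  unfold opT opTl
  rw [Finsupp.linearCombination_apply]
  unfold Finsupp.sum
  refine Finset.sum_congr rfl fun e _ => ?_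
  beta_reduce
  rw [Finsupp.smul_single, smul_eq_mul, mul_comm]

theorem opB_eq (A : Finset (τ → ℤ)) (c : (τ → ℤ) → R) (t : τ → R) (v : τ) (h : (τ → ℤ) →₀ R) :
    opB A c t v h = opAl A c v h + opTl t v h := by
  unfold opB
  rw [opA_eq, opT_eq]

theorem opAl_apply (A : Finset (τ → ℤ)) (c : (τ → ℤ) → R) (v : τ) (h : (τ → ℤ) →₀ R)
    (m : τ → ℤ) : opAl A c v h m = ∑ a ∈ A, c a * ((a v : ℤ) : R) * h (m - a) := by
  classical
  induction h using Finsupp.induction_linear with
  | zero => simp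
  | add u w hu hw =>
    rw [map_add, Finsupp.add_apply, hu, hw, ← Finset.sum_add_distrib]
    refine Finset.sum_congr rfl fun a _ => ?_
    rw [Finsupp.add_apply, mul_add]
  | single e d =>
    unfold opAl
    rw [Finsupp.linearCombination_single, Finsupp.smul_apply, Finsupp.finsetSum_apply,
      smul_eq_mul, Finset.mul_sum]
    refine Finset.sum_congr rfl fun a _ => ?_
    rw [Finsupp.single_apply, Finsupp.single_apply]
    by_cases h : e + a = m
    · have h' : e = m - a := by rw [← h, add_sub_cancel_right]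
      rw [if_pos h, if_pos h', mul_comm]
    · have h' : e ≠ m - a := fun h0 => h (by rw [h0, sub_add_cancel])
      rw [if_neg h, if_neg h', mul_zero, mul_zero]

theorem opTl_apply (t : τ → R) (v : τ) (h : (τ → ℤ) →₀ R) (m : τ → ℤ) :
    opTl t v h m = h m * (((m v : ℤ) : R) + t v) := by
  classical
  induction h using Finsupp.induction_linear with
  | zero => simp
  | add u w hu hw => rw [map_add, Finsupp.add_apply, hu, hw, Finsupp.add_apply, add_mul]
  | single e d =>
    unfold opTl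
    rw [Finsupp.linearCombination_single, Finsupp.smul_apply, smul_eq_mul, Finsupp.single_apply,
      Finsupp.single_apply]
    by_cases h : e = m
    · rw [if_pos h, if_pos h, h]
    · rw [if_neg h, if_neg h, mul_zero, zero_mul]

theorem opAl_comm (A : Finset (τ → ℤ)) (c : (τ → ℤ) → R) (u v : τ) (h : (τ → ℤ) →₀ R) :
    opAl A c u (opAl A c v h) = opAl A c v (opAl A c u h) := by
  ext m
  rw [opAl_apply, opAl_apply]
  simp only [opAl_apply, Finset.mul_sum]
  rw [Finset.sum_comm]
  refine Finset.sum_congr rfl fun a _ => Finset.sum_congr rfl fun b _ => ?_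
  rw [sub_right_comm m b a]
  ring

/-- `opA` with the exponents in `A_J` only, at the points with `m_J = 0` -/
theorem opAl_face {A : Finset (τ → ℤ)} {c : (τ → ℤ) → R} {v : τ} {h : (τ → ℤ) →₀ R}
    {J : Finset τ} [DecidablePred fun a : τ → ℤ => ∀ i ∈ J, a i = 0] {S : Set (τ → ℤ)}
    (hA : ∀ a ∈ A, ∀ i ∈ J, 0 ≤ a i) (hS : ∀ m ∈ S, ∀ i ∈ J, 0 ≤ m i) (hh : h ∈ sp R S)
    {m : τ → ℤ} (hm : ∀ i ∈ J, m i = 0) :
    opAl (A.filter fun a => ∀ i ∈ J, a i = 0) c v h m = opAl A c v h m := by
  classical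
  rw [opAl_apply, opAl_apply, Finset.sum_filter]
  refine Finset.sum_congr rfl fun a ha => ?_
  by_cases h1 : ∀ i ∈ J, a i = 0
  · rw [if_pos h1]
  · rw [if_neg h1]
    have h2 : h (m - a) = 0 := by
      by_contra h3
      refine h1 fun i hi => ?_
      have h4 := hS _ (hh _ h3) i hi
      have h5 := hA a ha i hi
      have h6 := hm i hi
      rw [Pi.sub_apply] at h4
      omega
    rw [h2, mul_zero]

end lin

section incres

variable {τ : Type} (R : Type) [CommRing R] (Rg : Set (τ → ℤ))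

/-- extension by zero -/
noncomputable def inc : (Rg →₀ R) →ₗ[R] ((τ → ℤ) →₀ R) := Finsupp.lmapDomain R R Subtype.val

/-- restriction to the region -/
noncomputable def res : ((τ → ℤ) →₀ R) →ₗ[R] (Rg →₀ R) := Finsupp.lsubtypeDomain Rg

variable {R Rg}

theorem inc_apply_mem (x : Rg →₀ R) {m : τ → ℤ} (hm : m ∈ Rg) : inc R Rg x m = x ⟨m, hm⟩ := by
  unfold inc
  rw [Finsupp.lmapDomain_apply]
  exact Finsupp.mapDomain_apply Subtype.val_injective x ⟨m, hm⟩

theorem inc_apply_notMem (x : Rg →₀ R) {m : τ → ℤ} (hm : m ∉ Rg) : inc R Rg x m = 0 := by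
  unfold inc
  rw [Finsupp.lmapDomain_apply]
  refine Finsupp.mapDomain_of_notMem_range _ _ ?_
  rintro ⟨q, rfl⟩
  exact hm q.2

theorem res_apply (x : (τ → ℤ) →₀ R) (q : Rg) : res R Rg x q = x q.1 := rfl

theorem inc_single (q : Rg) (r : R) : inc R Rg (single q r) = single q.1 r := by
  unfold inc
  rw [Finsupp.lmapDomain_apply, Finsupp.mapDomain_single]

theorem res_inc (x : Rg →₀ R) : res R Rg (inc R Rg x) = x := by
  ext q
  rw [res_apply, inc_apply_mem x q.2]

theorem inc_res {x : (τ → ℤ) →₀ R} (hx : x ∈ sp R Rg) : inc R Rg (res R Rg x) = x := by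
  ext m
  by_cases hm : m ∈ Rg
  · rw [inc_apply_mem _ hm, res_apply]
  · rw [inc_apply_notMem _ hm]
    by_contra h
    exact hm (hx m (Ne.symm h))

theorem inc_mem (x : Rg →₀ R) : inc R Rg x ∈ sp R Rg := by
  intro m hm
  by_contra h
  exact hm (inc_apply_notMem x h)

theorem inc_injective : Function.Injective (inc R Rg) := fun x y h => by
  rw [← res_inc x, h, res_inc]

/-- supports under `inc` -/
theorem inc_mem_sp {x : Rg →₀ R} {S : Set (τ → ℤ)} (hx : x ∈ sp R {q : Rg | q.1 ∈ S}) :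
    inc R Rg x ∈ sp R {m | m ∈ Rg ∧ m ∈ S} := by
  intro m hm
  have h1 := inc_mem x m hm
  rw [inc_apply_mem x h1] at hm
  exact ⟨h1, hx _ hm⟩

theorem res_mem_sp {x : (τ → ℤ) →₀ R} {S : Set (τ → ℤ)} (hx : x ∈ sp R S) :
    res R Rg x ∈ sp R {q : Rg | q.1 ∈ S} := fun q hq => hx q.1 hq

end incres

/-- The data of the strictness lemma for Laurent monomials in a region -/
structure Sys (k R τ : Type) [Fintype τ] [Field k] [CommRing R] [Algebra k R] where
  /-- directions -/
  act : Finset τ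
  /-- filled coordinates -/
  P : Finset τ
  /-- exponents -/
  A : Finset (τ → ℤ)
  /-- coefficients -/
  c : (τ → ℤ) → k
  /-- shifts -/
  t : τ → R
  /-- region -/
  Rg : Set (τ → ℤ)
  /-- degree -/
  kap : τ → ℤ
  /-- degree of the exponents -/
  N : ℤ
  /-- lower bound of the degree -/
  b : ℤ

namespace Sys

variable {k R τ : Type} [Fintype τ] [Field k] [CommRing R] [Algebra k R]

/-- hypotheses on the region -/
structure Geo (S : Sys k R τ) : Prop where
  stable : ∀ m ∈ S.Rg, ∀ a ∈ S.A, m + a ∈ S.Rg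
  nonneg : ∀ m ∈ S.Rg, ∀ i ∈ S.P, 0 ≤ m i
  nonnegA : ∀ a ∈ S.A, ∀ i ∈ S.P, 0 ≤ a i
  pos : 0 < S.N
  homog : ∀ a ∈ S.A, pr S.kap a = S.N
  below : ∀ m ∈ S.Rg, S.b ≤ pr S.kap m

open Classical in
/-- the exponents with `a_J = 0` -/
noncomputable def AJ (S : Sys k R τ) (J : Finset τ) : Finset (τ → ℤ) :=
  S.A.filter fun a => ∀ i ∈ J, a i = 0

/-- the Koszul hypothesis `(H_J)` -/
def Kz (S : Sys k R τ) : Prop :=
  ∀ J ⊆ S.P, ∀ x : τ → (τ → ℤ) →₀ k,
    (∀ v, ∀ m, x v m ≠ 0 → m ∈ S.Rg ∧ ∀ i ∈ J, m i = 0) →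
    ∑ v ∈ S.act, opA (S.AJ J) S.c v (x v) = 0 →
    ∃ (y : τ → τ → (τ → ℤ) →₀ k) (w : τ → (τ → ℤ) →₀ k),
      (∀ v u, y v u = - y u v) ∧ (∀ v u, ∀ m, y v u m ≠ 0 → m ∈ S.Rg) ∧
      (∀ v, ∀ m, w v m ≠ 0 → m ∈ S.Rg) ∧
      (∀ v ∈ S.act, ∀ m ∈ S.Rg, (∀ i ∈ J, m i = 0) →
        x v m = (∑ u ∈ S.act, opA (S.AJ J) S.c u (y v u)) m + w v m) ∧
      ∀ m, (∀ a ∈ S.AJ J, S.c a ≠ 0 → ∑ v ∈ S.act, w v m * ((a v : ℤ) : k) = 0) ∧
        ∀ m' ∈ S.Rg, (∀ i ∈ J, m' i = 0) →
          ∑ v ∈ S.act, algebraMap k R (w v m) * (((m' v : ℤ) : R) + S.t v) = 0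

open Classical in
/-- the abstract data -/
noncomputable def dat (S : Sys k R τ) : Dat k R S.act τ S.Rg where
  deg q := (pr S.kap q.1 - S.b).toNat
  Z q := S.P.filter fun i => q.1 i = 0
  e := S.N.toNat
  a i := res k S.Rg ∘ₗ opAl S.A S.c i.1 ∘ₗ inc k S.Rg
  m i q := ((q.1 i.1 : ℤ) : R) + S.t i.1

variable {S : Sys k R τ}

theorem opAl_mem {R' : Type} [CommRing R'] (hG : S.Geo) {A' : Finset (τ → ℤ)} (hA' : A' ⊆ S.A)
    (c : (τ → ℤ) → R') (v : τ) {h : (τ → ℤ) →₀ R'} (hh : h ∈ sp R' S.Rg) :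
    opAl A' c v h ∈ sp R' S.Rg := by
  intro m hm
  rw [opAl_apply] at hm
  obtain ⟨a, ha, h1⟩ := Finset.exists_ne_zero_of_sum_ne_zero hm
  have h2 : h (m - a) ≠ 0 := fun h0 => h1 (by rw [h0, mul_zero])
  have h3 := hG.stable _ (hh _ h2) a (hA' ha)
  rwa [sub_add_cancel] at h3

theorem inc_a (hG : S.Geo) (i : S.act) (x : S.Rg →₀ k) :
    inc k S.Rg (S.dat.a i x) = opAl S.A S.c i.1 (inc k S.Rg x) := by
  change inc k S.Rg (res k S.Rg (opAl S.A S.c i.1 (inc k S.Rg x))) = _
  exact inc_res (opAl_mem hG subset_rfl _ _ (inc_mem x))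

theorem a_apply (i : S.act) (x : S.Rg →₀ k) (q : S.Rg) :
    S.dat.a i x q = opAl S.A S.c i.1 (inc k S.Rg x) q.1 := rfl

open Classical in
theorem a_single (i : S.act) (q q' : S.Rg) :
    S.dat.a i (single q 1) q' =
      if q'.1 - q.1 ∈ S.A then S.c (q'.1 - q.1) * (((q'.1 - q.1) i.1 : ℤ) : k) else 0 := by
  rw [a_apply, inc_single, opAl_apply]
  by_cases h : q'.1 - q.1 ∈ S.A
  · rw [if_pos h, Finset.sum_eq_single_of_mem _ h, sub_sub_cancel, Finsupp.single_eq_same, mul_one]
    intro a _ ha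
    rw [Finsupp.single_apply, if_neg, mul_zero]
    intro h0
    exact ha (by rw [h0, sub_sub_cancel])
  · rw [if_neg h]
    refine Finset.sum_eq_zero fun a ha => ?_
    rw [Finsupp.single_apply, if_neg, mul_zero]
    intro h0
    exact h (by rw [h0, sub_sub_cancel]; exact ha)

theorem pr_add (u : τ → ℤ) (m m' : τ → ℤ) : pr u (m + m') = pr u m + pr u m' := by
  unfold pr
  rw [← Finset.sum_add_distrib]
  refine Finset.sum_congr rfl fun i _ => ?_
  rw [Pi.add_apply, Int.cast_add, mul_add]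

theorem ok [CharZero k] (hG : S.Geo) (hK : S.Kz) : S.dat.Ok where
  he := by
    change 0 < S.N.toNat
    have := hG.pos
    omega
  homog := by
    classical
    intro i q q' h
    rw [a_single] at h
    by_cases hA : q'.1 - q.1 ∈ S.A
    · have hq' : q'.1 = q.1 + (q'.1 - q.1) := by abel
      refine ⟨?_, ?_⟩
      · change (pr S.kap q'.1 - S.b).toNat = (pr S.kap q.1 - S.b).toNat + S.N.toNat
        have h1 := hG.below q.1 q.2
        have h2 := hG.homog _ hA
        have h3 := hG.pos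
        have h4 : pr S.kap q'.1 = pr S.kap q.1 + S.N := by
          rw [hq', pr_add]
          conv_rhs => rw [← h2]
        omega
      · intro j hj
        change j ∈ S.P.filter fun i => q'.1 i = 0 at hj
        change j ∈ S.P.filter fun i => q.1 i = 0
        rw [Finset.mem_filter] at hj ⊢
        refine ⟨hj.1, ?_⟩
        have h1 := hG.nonneg _ q.2 j hj.1
        have h2 := hG.nonnegA _ hA j hj.1
        have h3 := hj.2
        rw [Pi.sub_apply] at h2
        omega
    · rw [if_neg hA] at h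
      exact absurd rfl h
  comm := by
    classical
    intro i j x
    refine Dat.comm_of (fun i j x => ?_) (fun i j q q' => ?_) i j x
    · refine inc_injective ?_
      rw [inc_a hG, inc_a hG, inc_a hG, inc_a hG, opAl_comm]
    · rw [a_single, a_single]
      by_cases hA : q'.1 - q.1 ∈ S.A
      · rw [if_pos hA, if_pos hA]
        change _ * ((((q'.1 j.1 : ℤ) : R) + S.t j.1) - (((q.1 j.1 : ℤ) : R) + S.t j.1)) =
          _ * ((((q'.1 i.1 : ℤ) : R) + S.t i.1) - (((q.1 i.1 : ℤ) : R) + S.t i.1))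
        rw [map_mul, map_mul, map_intCast, map_intCast, Pi.sub_apply, Pi.sub_apply, Int.cast_sub,
          Int.cast_sub]
        ring
      · rw [if_neg hA, if_neg hA, map_zero, zero_mul, zero_mul]
  koszul := by
    classical
    intro J d x hx hsum
    by_cases hJ : J ⊆ S.P
    swap
    · -- empty face
      have hempty : ∀ q : S.Rg, ¬ J ⊆ S.dat.Z q := by
        intro q hq
        refine hJ fun i hi => ?_
        have h1 : i ∈ S.P.filter fun i => q.1 i = 0 := hq hi
        exact (Finset.mem_filter.1 h1).1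
      refine ⟨fun _ _ => 0, fun _ _ => by simp, fun _ _ => Submodule.zero_mem _, fun q hq => ?_⟩
      exact absurd hq (hempty q)
    have hZ : ∀ q : S.Rg, J ⊆ S.dat.Z q ↔ ∀ i ∈ J, q.1 i = 0 := by
      intro q
      constructor
      · intro h i hi
        have h1 : i ∈ S.P.filter fun i => q.1 i = 0 := h hi
        exact (Finset.mem_filter.1 h1).2
      · intro h i hi
        change i ∈ S.P.filter fun i => q.1 i = 0
        exact Finset.mem_filter.2 ⟨hJ hi, h i hi⟩
    -- the family on `τ`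
    set X : τ → (τ → ℤ) →₀ k := fun v => if h : v ∈ S.act then inc k S.Rg (x ⟨v, h⟩) else 0 with hX
    have hXi : ∀ i : S.act, X i.1 = inc k S.Rg (x i) := by
      intro i
      rw [hX]
      simp only
      rw [dif_pos i.2]
    have hXs : ∀ v, ∀ m, X v m ≠ 0 → m ∈ S.Rg ∧ ∀ i ∈ J, m i = 0 := by
      intro v m hm
      by_cases hv : v ∈ S.act
      · rw [hXi ⟨v, hv⟩] at hm
        have h1 := inc_mem (x ⟨v, hv⟩) m hm
        rw [inc_apply_mem _ h1] at hm
        exact ⟨h1, (hZ ⟨m, h1⟩).1 (hx _ _ hm).2⟩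
      · rw [hX] at hm
        simp only at hm
        rw [dif_neg hv] at hm
        exact absurd rfl hm
    have hXR : ∀ v, X v ∈ sp k S.Rg := fun v m hm => (hXs v m hm).1
    have hnA : ∀ a ∈ S.A, ∀ i ∈ J, 0 ≤ a i := fun a ha i hi => hG.nonnegA a ha i (hJ hi)
    have hnR : ∀ m ∈ S.Rg, ∀ i ∈ J, 0 ≤ m i := fun m hm i hi => hG.nonneg m hm i (hJ hi)
    have hAJ : S.AJ J ⊆ S.A := Finset.filter_subset _ _
    -- the value of `∑ opA` at a point of the face
    have hval : ∀ (z : τ → (τ → ℤ) →₀ k), (∀ v, z v ∈ sp k S.Rg) → ∀ q : S.Rg,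
        (∀ i ∈ J, q.1 i = 0) → (∑ v ∈ S.act, opA (S.AJ J) S.c v (z v)) q.1 =
          ∑ i : S.act, S.dat.a i (res k S.Rg (z i.1)) q := by
      intro z hz q hq
      rw [Finsupp.finsetSum_apply, ← Finset.sum_coe_sort S.act]
      refine Finset.sum_congr rfl fun i _ => ?_
      rw [a_apply, inc_res (hz _), opA_eq]
      exact opAl_face hnA hnR (hz _) hq
    have hrel : ∑ v ∈ S.act, opA (S.AJ J) S.c v (X v) = 0 := by
      ext m
      rw [Finsupp.zero_apply]
      by_cases hm : m ∈ S.Rg ∧ ∀ i ∈ J, m i = 0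
      · rw [hval X hXR ⟨m, hm.1⟩ hm.2]
        have h1 := hsum ⟨m, hm.1⟩ ((hZ _).2 hm.2)
        rw [Finsupp.finsetSum_apply] at h1
        rw [← h1]
        refine Finset.sum_congr rfl fun i _ => ?_
        rw [hXi, res_inc]
      · rw [Finsupp.finsetSum_apply]
        refine Finset.sum_eq_zero fun v _ => ?_
        rw [opA_eq, opAl_apply]
        refine Finset.sum_eq_zero fun a ha => ?_
        have h1 : X v (m - a) = 0 := by
          by_contra h2
          obtain ⟨h3, h4⟩ := hXs v _ h2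
          have h5 : a ∈ S.A.filter fun a => ∀ i ∈ J, a i = 0 := ha
          rw [Finset.mem_filter] at h5
          refine hm ⟨?_, fun i hi => ?_⟩
          · have := hG.stable _ h3 a h5.1
            rwa [sub_add_cancel] at this
          · have h6 := h4 i hi
            have h7 := h5.2 i hi
            rw [Pi.sub_apply] at h6
            omega
        rw [h1, mul_zero]
    obtain ⟨y, w, hy1, hy2, hw2, hxyw, hw3⟩ := hK J hJ X hXs hrel
    -- homogeneous parts
    refine ⟨fun i j => rs k {q | S.dat.deg q + S.dat.e = d} (res k S.Rg (y i.1 j.1)),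
      fun i j => ?_, fun i j => ?_, fun q hq => ?_⟩
    · beta_reduce
      rw [hy1 j.1 i.1, map_neg, map_neg]
    · exact sp_mono (fun q hq => le_of_eq hq) (rs_mem_sp _ _)
    · -- `a j` of the homogeneous part
      have hpos := hG.pos
      have hdeg : ∀ (j : S.act) (z : S.Rg →₀ k),
          S.dat.a j (rs k {q | S.dat.deg q + S.dat.e = d} z) q =
            if S.dat.deg q = d then S.dat.a j z q else 0 := by
        intro j z
        induction z using Finsupp.induction_linear with
        | zero => simp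
        | add u w hu hw =>
          rw [map_add, map_add, Finsupp.add_apply, hu, hw, map_add, Finsupp.add_apply]
          by_cases h1 : S.dat.deg q = d
          · rw [if_pos h1, if_pos h1, if_pos h1]
          · rw [if_neg h1, if_neg h1, if_neg h1, add_zero]
        | single q1 r =>
          have h2 : single q1 r = r • single q1 (1 : k) := by simp
          have h3 : S.dat.a j (single q1 1) q ≠ 0 → S.dat.deg q = S.dat.deg q1 + S.dat.e := by
            intro h4
            rw [a_single] at h4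
            by_cases hA : q.1 - q1.1 ∈ S.A
            · change (pr S.kap q.1 - S.b).toNat = (pr S.kap q1.1 - S.b).toNat + S.N.toNat
              have h5 := hG.below q1.1 q1.2
              have h6 := hG.homog _ hA
              have h7 : q.1 = q1.1 + (q.1 - q1.1) := by abel
              have h8 : pr S.kap q.1 = pr S.kap q1.1 + S.N := by
                rw [h7, pr_add]
                conv_rhs => rw [← h6]
              omega
            · rw [if_neg hA] at h4
              exact absurd rfl h4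
          rw [h2, map_smul, map_smul, map_smul, Finsupp.smul_apply, Finsupp.smul_apply]
          by_cases h4 : S.dat.a j (single q1 1) q = 0
          · have h5 : S.dat.a j (rs k {q | S.dat.deg q + S.dat.e = d} (single q1 1)) q = 0 := by
              by_cases h6 : q1 ∈ {q | S.dat.deg q + S.dat.e = d}
              · rw [rs_single_mem h6, h4]
              · rw [rs_single_notMem h6, map_zero]
                rfl
            rw [h4, h5, smul_zero]
            split_ifs <;> rfl
          · have h5 := h3 h4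
            by_cases h6 : S.dat.deg q = d
            · rw [if_pos h6, rs_single_mem (show q1 ∈ {q | S.dat.deg q + S.dat.e = d} from
                h5.symm.trans h6)]
            · rw [if_neg h6, rs_single_notMem (S := {q | S.dat.deg q + S.dat.e = d}) (q := q1)
                (fun h7 => h6 (h5.trans h7)), map_zero,
                Finsupp.zero_apply, smul_zero]
      by_cases hd : S.dat.deg q = d
      · have hqJ := (hZ q).1 hq
        have h1 : (fun i : S.act => x i q - (∑ j, S.dat.a j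
            (rs k {q | S.dat.deg q + S.dat.e = d} (res k S.Rg (y i.1 j.1)))) q) =
            fun i : S.act => w i.1 q.1 := by
          funext i
          have h2 := hxyw i.1 i.2 q.1 q.2 hqJ
          rw [hval (fun u => y i.1 u) (fun u m hm => hy2 i.1 u m hm) q hqJ, hXi,
            inc_apply_mem _ q.2] at h2
          rw [Finsupp.finsetSum_apply, Finset.sum_congr rfl fun j _ => hdeg j _]
          simp only [if_pos hd]
          rw [h2]
          abel
        rw [h1]
        refine ⟨fun q1 q2 h2 h3 => ?_, fun q1 h2 => ?_⟩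
        · by_cases hA : q2.1 - q1.1 ∈ S.A
          · have h4 : ∀ i : S.act, w i.1 q.1 * S.dat.a i (single q1 1) q2 =
                S.c (q2.1 - q1.1) * (w i.1 q.1 * (((q2.1 - q1.1) i.1 : ℤ) : k)) := by
              intro i
              rw [a_single, if_pos hA]
              ring
            rw [Finset.sum_congr rfl fun i _ => h4 i, ← Finset.mul_sum,
              Finset.sum_coe_sort S.act (fun v => w v q.1 * (((q2.1 - q1.1) v : ℤ) : k))]
            by_cases hc : S.c (q2.1 - q1.1) = 0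
            · rw [hc, zero_mul]
            · rw [(hw3 q.1).1 (q2.1 - q1.1) ?_ hc, mul_zero]
              change _ ∈ S.A.filter fun a => ∀ i ∈ J, a i = 0
              refine Finset.mem_filter.2 ⟨hA, fun i hi => ?_⟩
              rw [Pi.sub_apply, (hZ q1).1 h2 i hi, (hZ q2).1 h3 i hi, sub_zero]
          · refine Finset.sum_eq_zero fun i _ => ?_
            rw [a_single, if_neg hA, mul_zero]
        · have h4 := (hw3 q.1).2 q1.1 q1.2 ((hZ q1).1 h2)
          rw [← Finset.sum_coe_sort S.act] at h4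
          exact h4
      · have h1 : (fun i : S.act => x i q - (∑ j, S.dat.a j
            (rs k {q | S.dat.deg q + S.dat.e = d} (res k S.Rg (y i.1 j.1)))) q) =
            fun _ => 0 := by
          funext i
          rw [Finsupp.finsetSum_apply, Finset.sum_congr rfl fun j _ => hdeg j _]
          simp only [if_neg hd, Finset.sum_const_zero, sub_zero]
          by_contra h2
          exact hd (hx i q h2).1
        rw [h1]
        refine ⟨fun q1 q2 _ _ => ?_, fun q1 _ => ?_⟩
        · simp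
        · simp

/-- the coefficients in `R` -/
def cR (S : Sys k R τ) (a : τ → ℤ) : R := algebraMap k R (S.c a)

theorem inc_opA (hG : S.Geo) (i : S.act) (x : S.Rg →₀ R) :
    inc R S.Rg (S.dat.opA i x) = opAl S.A S.cR i.1 (inc R S.Rg x) := by
  classical
  induction x using Finsupp.induction_linear with
  | zero => simp
  | add u w hu hw => rw [map_add, map_add, hu, hw, map_add, map_add]
  | single q r =>
    have h1 : S.dat.opA i (single q r) = r • up R (S.dat.a i (single q 1)) := bc_single R _ _ _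
    ext m
    by_cases hm : m ∈ S.Rg
    · rw [inc_apply_mem _ hm, h1, Finsupp.smul_apply, up_apply, a_apply, inc_single, inc_single,
        opAl_apply, opAl_apply, map_sum, smul_eq_mul, Finset.mul_sum]
      refine Finset.sum_congr rfl fun a _ => ?_
      rw [Finsupp.single_apply, Finsupp.single_apply]
      by_cases h2 : q.1 = m - a
      · rw [if_pos h2, if_pos h2, mul_one, map_mul, map_intCast]
        unfold cR
        ring
      · rw [if_neg h2, if_neg h2, mul_zero, map_zero, mul_zero, mul_zero]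
    · rw [inc_apply_notMem _ hm]
      by_contra h2
      exact hm (opAl_mem hG subset_rfl _ _ (inc_mem _) m (Ne.symm h2))

theorem inc_dg (i : S.act) (x : S.Rg →₀ R) :
    inc R S.Rg (dg (S.dat.m i) x) = opTl S.t i.1 (inc R S.Rg x) := by
  ext m
  rw [opTl_apply]
  by_cases hm : m ∈ S.Rg
  · rw [inc_apply_mem _ hm, inc_apply_mem _ hm, Dat.dg_apply]
    rfl
  · rw [inc_apply_notMem _ hm, inc_apply_notMem _ hm, zero_mul]

theorem inc_opB (hG : S.Geo) (i : S.act) (x : S.Rg →₀ R) :
    inc R S.Rg (S.dat.opB i x) = opB S.A S.cR S.t i.1 (inc R S.Rg x) := by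
  rw [Dat.opB_apply, map_add, inc_opA hG, inc_dg, opB_eq]

/-- the filled condition for the component `v` -/
def Fil (S : Sys k R τ) (v : τ) : Set (τ → ℤ) := {m | m ∈ S.Rg ∧ ∀ i ∈ S.P, i ≠ v → 1 ≤ m i}

theorem fil_iff (hG : S.Geo) (v : τ) (q : S.Rg) :
    S.dat.Z q ∈ {s : Finset τ | s ⊆ {v}} ↔ q.1 ∈ S.Fil v := by
  classical
  constructor
  · intro h
    refine ⟨q.2, fun i hi hiv => ?_⟩
    by_contra h1
    have h2 := hG.nonneg _ q.2 i hi
    have h3 : i ∈ S.P.filter fun i => q.1 i = 0 := Finset.mem_filter.2 ⟨hi, by omega⟩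
    exact hiv (Finset.mem_singleton.1 (h h3))
  · intro h i hi
    have h1 : i ∈ S.P.filter fun i => q.1 i = 0 := hi
    rw [Finset.mem_filter] at h1
    rw [Finset.mem_singleton]
    by_contra h2
    have h3 := h.2 i h1.1 h2
    omega

/-- **Consequence 1 (top degree).** A monomial which is, up to a factor `r ≠ 0` of `R`, in the image
of the operators `B_v` is in the image of the `A_v` over the base field, in the same filled
module and one degree lower. -/
theorem top [CharZero k] (hG : S.Geo) (hK : S.Kz) {m0 : τ → ℤ} (hm0 : m0 ∈ S.Rg) {r : R}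
    (hr : r ≠ 0) (η : τ → (τ → ℤ) →₀ R)
    (hη : ∀ v ∈ S.act, ∀ m, η v m ≠ 0 → m ∈ S.Rg ∧ ∀ i ∈ S.P, i ≠ v → 1 ≤ m i)
    (hrel : single m0 r = ∑ v ∈ S.act, opB S.A S.cR S.t v (η v)) :
    ∃ η' : τ → (τ → ℤ) →₀ k,
      (∀ v, ∀ m, η' v m ≠ 0 → m ∈ S.Rg ∧ (∀ i ∈ S.P, i ≠ v → 1 ≤ m i) ∧
        pr S.kap m + S.N = pr S.kap m0) ∧
      single m0 1 = ∑ v ∈ S.act, opA S.A S.c v (η' v) := by
  classical
  have hok := ok hG hK
  have hC : ∀ i : S.act, ∀ s ∈ {s : Finset τ | s ⊆ {i.1}}, ∀ t, t ⊆ s →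
      t ∈ {s : Finset τ | s ⊆ {i.1}} := fun i s hs t ht => Finset.Subset.trans ht hs
  have hx : (single ⟨m0, hm0⟩ 1 : S.Rg →₀ k) ∈
      sp k {q | S.dat.deg q = S.dat.deg ⟨m0, hm0⟩} :=
    single_mem_sp (R := k) (S := {q | S.dat.deg q = S.dat.deg ⟨m0, hm0⟩}) rfl _
  have hR : ∀ i : S.act, η i.1 ∈ sp R S.Rg := fun i m hm => (hη i.1 i.2 m hm).1
  obtain ⟨ζ, h1, h2⟩ := Dat.top_degree hok (C := fun i : S.act => {s : Finset τ | s ⊆ {i.1}}) hC hx
    hr (η := fun i => res R S.Rg (η i.1)) (fun i q hq => (fil_iff hG i.1 q).2 (hη i.1 i.2 q.1 hq))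
    (by
      refine inc_injective ?_
      rw [map_smul, up_single, map_one, inc_single, Finsupp.smul_single, smul_eq_mul, mul_one, hrel,
        map_sum, ← Finset.sum_coe_sort S.act]
      refine Finset.sum_congr rfl fun i _ => ?_
      rw [inc_opB hG, inc_res (hR i)])
  refine ⟨fun v => if h : v ∈ S.act then inc k S.Rg (ζ ⟨v, h⟩) else 0, fun v m hm => ?_, ?_⟩
  · by_cases hv : v ∈ S.act
    · simp only [dif_pos hv] at hm
      have h3 := inc_mem _ m hm
      rw [inc_apply_mem _ h3] at hm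
      have h4 := h1 ⟨v, hv⟩ ⟨m, h3⟩ hm
      refine ⟨h3, ((fil_iff hG v ⟨m, h3⟩).1 h4.1).2, ?_⟩
      have h5 : (pr S.kap m - S.b).toNat + S.N.toNat = (pr S.kap m0 - S.b).toNat := h4.2
      have h6 := hG.below m h3
      have h7 := hG.below m0 hm0
      have h8 := hG.pos
      omega
    · simp only [dif_neg hv] at hm
      exact absurd rfl hm
  · have h3 : inc k S.Rg (single ⟨m0, hm0⟩ 1) = single m0 1 := inc_single _ _
    rw [← h3, h2, map_sum, ← Finset.sum_coe_sort S.act]
    refine Finset.sum_congr rfl fun i _ => ?_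
    rw [inc_a hG, opA_eq]
    beta_reduce
    rw [dif_pos i.2]

/-- **Consequence 2 (saturation).** -/
theorem sat [CharZero k] (hG : S.Geo) (hK : S.Kz) {x : (τ → ℤ) →₀ R}
    (hx : ∀ m, x m ≠ 0 → m ∈ S.Rg) {r : R} (hr : ∀ a : R, r * a = 0 → a = 0)
    (η : τ → (τ → ℤ) →₀ R)
    (hη : ∀ v ∈ S.act, ∀ m, η v m ≠ 0 → m ∈ S.Rg ∧ ∀ i ∈ S.P, i ≠ v → 1 ≤ m i)
    (hrel : r • x = ∑ v ∈ S.act, opB S.A S.cR S.t v (η v)) :
    ∃ η' : τ → (τ → ℤ) →₀ R,
      (∀ v, ∀ m, η' v m ≠ 0 → m ∈ S.Rg ∧ ∀ i ∈ S.P, i ≠ v → 1 ≤ m i) ∧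
      x = ∑ v ∈ S.act, opB S.A S.cR S.t v (η' v) := by
  classical
  have hok := ok hG hK
  have hC : ∀ i : S.act, ∀ s ∈ {s : Finset τ | s ⊆ {i.1}}, ∀ t, t ⊆ s →
      t ∈ {s : Finset τ | s ⊆ {i.1}} := fun i s hs t ht => Finset.Subset.trans ht hs
  have hR : ∀ i : S.act, η i.1 ∈ sp R S.Rg := fun i m hm => (hη i.1 i.2 m hm).1
  have hxR : x ∈ sp R S.Rg := hx
  obtain ⟨ζ, h1, h2⟩ := Dat.saturated hok (C := fun i : S.act => {s : Finset τ | s ⊆ {i.1}}) hC
    (x := res R S.Rg x) hr (η := fun i => res R S.Rg (η i.1))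
    (fun i q hq => (fil_iff hG i.1 q).2 (hη i.1 i.2 q.1 hq))
    (by
      refine inc_injective ?_
      rw [map_smul, inc_res hxR, hrel, map_sum, ← Finset.sum_coe_sort S.act]
      refine Finset.sum_congr rfl fun i _ => ?_
      rw [inc_opB hG, inc_res (hR i)])
  refine ⟨fun v => if h : v ∈ S.act then inc R S.Rg (ζ ⟨v, h⟩) else 0, fun v m hm => ?_, ?_⟩
  · by_cases hv : v ∈ S.act
    · simp only [dif_pos hv] at hm
      have h3 := inc_mem _ m hm
      rw [inc_apply_mem _ h3] at hm
      exact (fil_iff hG v ⟨m, h3⟩).1 (h1 ⟨v, hv⟩ ⟨m, h3⟩ hm)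
    · simp only [dif_neg hv] at hm
      exact absurd rfl hm
  · rw [← inc_res hxR, h2, map_sum, ← Finset.sum_coe_sort S.act]
    refine Finset.sum_congr rfl fun i _ => ?_
    rw [inc_opB hG]
    beta_reduce
    rw [dif_pos i.2]

end Sys

/-! ### Specialization -/

section spec

variable {k R R' τ : Type} [Field k] [CommRing R] [Algebra k R] [CommRing R'] [Algebra k R']

theorem mp_opB_fam (φ : R →ₐ[k] R') (A : Finset (τ → ℤ)) (c : (τ → ℤ) → k) (t : τ → R) (v : τ)
    (h : (τ → ℤ) →₀ R) :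
    mp φ (opB A (fun a => algebraMap k R (c a)) t v h) =
      opB A (fun a => algebraMap k R' (c a)) (fun v => φ (t v)) v (mp φ h) := by
  ext m
  rw [mp_apply, opB_eq, opB_eq, Finsupp.add_apply, Finsupp.add_apply, opAl_apply, opAl_apply,
    opTl_apply, opTl_apply, map_add, map_mul, map_add, map_intCast, mp_apply, map_sum]
  congr 1
  refine Finset.sum_congr rfl fun a _ => ?_
  rw [map_mul, map_mul, AlgHom.commutes, map_intCast, mp_apply]

/-- image of a relation under a `k`-algebra homomorphism -/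
theorem spc (φ : R →ₐ[k] R') {act : Finset τ} {A : Finset (τ → ℤ)} {c : (τ → ℤ) → k} {t : τ → R}
    {x : (τ → ℤ) →₀ R} {η : τ → (τ → ℤ) →₀ R}
    (hrel : x = ∑ v ∈ act, opB A (fun a => algebraMap k R (c a)) t v (η v)) :
    mp φ x = ∑ v ∈ act, opB A (fun a => algebraMap k R' (c a)) (fun v => φ (t v)) v (mp φ (η v)) := by
  rw [hrel, mp_sum]
  exact Finset.sum_congr rfl fun v _ => mp_opB_fam φ A c t v _

end spec

end Pool.Agent.ND.H22
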