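import Mathlib

/-!
# Strictness lemma: base change of linear maps between free modules with bases

`Q →₀ k` is the span of the monomials `x^q`, `q : Q`, over the field `k`; `Q →₀ R` the same over a
commutative `k`-algebra `R` (`k` itself or the power series over `k`).
-/

set_option autoImplicit false

namespace Pool.Agent.ND.H22

open Finsupp

section base

variable {k : Type} [Field k] (R : Type) [CommRing R] [Algebra k R] {X Y W : Type}

/-- coefficients from `k` to `R` -/
noncomputable def up (u : X →₀ k) : X →₀ R := u.mapRange (algebraMap k R) (map_zero _)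

@[simp] theorem up_apply (u : X →₀ k) (x : X) : up R u x = algebraMap k R (u x) := by
  unfold up
  simp

@[simp] theorem up_zero : up R (0 : X →₀ k) = 0 := by
  ext x
  simp

theorem up_add (u v : X →₀ k) : up R (u + v) = up R u + up R v := by
  ext x
  simp

theorem up_neg (u : X →₀ k) : up R (-u) = -up R u := by
  ext x
  simp

theorem up_smul (c : k) (u : X →₀ k) : up R (c • u) = algebraMap k R c • up R u := by
  ext x
  rw [up_apply, Finsupp.smul_apply, Finsupp.smul_apply, up_apply, smul_eq_mul, smul_eq_mul, map_mul]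

theorem up_single (x : X) (c : k) : up R (single x c) = single x (algebraMap k R c) := by
  unfold up
  simp

theorem up_sum {ι : Type} (s : Finset ι) (f : ι → X →₀ k) :
    up R (∑ i ∈ s, f i) = ∑ i ∈ s, up R (f i) := by
  classical
  induction s using Finset.induction_on with
  | empty => simp
  | insert i s hi ih => rw [Finset.sum_insert hi, Finset.sum_insert hi, up_add, ih]

/-- base change of a linear map -/
noncomputable def bc (f : (X →₀ k) →ₗ[k] (Y →₀ k)) : (X →₀ R) →ₗ[R] (Y →₀ R) :=
  Finsupp.linearCombination R (fun x => up R (f (single x 1)))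

theorem bc_single (f : (X →₀ k) →ₗ[k] (Y →₀ k)) (x : X) (r : R) :
    bc R f (single x r) = r • up R (f (single x 1)) := by
  unfold bc
  rw [Finsupp.linearCombination_single]

theorem bc_up (f : (X →₀ k) →ₗ[k] (Y →₀ k)) (u : X →₀ k) : bc R f (up R u) = up R (f u) := by
  induction u using Finsupp.induction_linear with
  | zero => simp
  | add u v hu hv => rw [up_add, map_add, map_add, up_add, hu, hv]
  | single x c =>
    have h : single x c = c • single x (1 : k) := by simp
    rw [up_single, bc_single, h, map_smul, up_smul]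

theorem bc_comp (g : (Y →₀ k) →ₗ[k] (W →₀ k)) (f : (X →₀ k) →ₗ[k] (Y →₀ k)) :
    bc R (g ∘ₗ f) = bc R g ∘ₗ bc R f := by
  refine Finsupp.lhom_ext fun x r => ?_
  rw [LinearMap.comp_apply, bc_single, bc_single, map_smul, bc_up]
  rfl

theorem bc_add (g f : (X →₀ k) →ₗ[k] (Y →₀ k)) : bc R (g + f) = bc R g + bc R f := by
  refine Finsupp.lhom_ext fun x r => ?_
  rw [LinearMap.add_apply, bc_single, bc_single, bc_single, LinearMap.add_apply, up_add, smul_add]

theorem bc_id : bc R (LinearMap.id : (X →₀ k) →ₗ[k] (X →₀ k)) = LinearMap.id := by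
  refine Finsupp.lhom_ext fun x r => ?_
  rw [bc_single, LinearMap.id_apply, LinearMap.id_apply, up_single]
  simp

theorem bc_comp_apply (g : (Y →₀ k) →ₗ[k] (W →₀ k)) (f : (X →₀ k) →ₗ[k] (Y →₀ k)) (u : X →₀ R) :
    bc R g (bc R f u) = bc R (g ∘ₗ f) u := by
  rw [bc_comp]
  rfl

end base

/-- a generalized inverse of a linear map -/
theorem exists_ginv {k V W : Type} [Field k] [AddCommGroup V] [Module k V] [AddCommGroup W]
    [Module k W] (f : V →ₗ[k] W) : ∃ g : W →ₗ[k] V, ∀ v, f (g (f v)) = f v := by
  obtain ⟨s, hs⟩ := f.rangeRestrict.exists_rightInverse_of_surjective f.range_rangeRestrict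
  obtain ⟨g, hg⟩ := LinearMap.exists_extend s
  refine ⟨g, fun v => ?_⟩
  have h1 : g (f v) = s ⟨f v, LinearMap.mem_range_self f v⟩ := by
    have := LinearMap.congr_fun hg ⟨f v, LinearMap.mem_range_self f v⟩
    exact this
  have h2 := LinearMap.congr_fun hs ⟨f v, LinearMap.mem_range_self f v⟩
  have h3 := congrArg Subtype.val h2
  rw [h1]
  exact h3

/-- the kernel of the base change is generated by the kernel: a linear map over `R` that kills the
kernel over `k` kills the kernel over `R` -/
theorem ker_bc {k : Type} [Field k] {R : Type} [CommRing R] [Algebra k R] {X Y : Type}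
    {M : Type} [AddCommGroup M] [Module R M]
    (f : (X →₀ k) →ₗ[k] (Y →₀ k)) (t : (X →₀ R) →ₗ[R] M)
    (h : ∀ u : X →₀ k, f u = 0 → t (up R u) = 0) (x : X →₀ R) (hx : bc R f x = 0) : t x = 0 := by
  obtain ⟨g, hg⟩ := exists_ginv f
  have h1 : ∀ u : X →₀ R, t (u - bc R g (bc R f u)) = 0 := by
    intro u
    induction u using Finsupp.induction_linear with
    | zero => simp
    | add u v hu hv =>
      have : u + v - bc R g (bc R f (u + v)) =
          (u - bc R g (bc R f u)) + (v - bc R g (bc R f v)) := by
        rw [map_add, map_add]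
        abel
      rw [this, map_add, hu, hv, add_zero]
    | single x r =>
      have h2 : single x r - bc R g (bc R f (single x r)) =
          r • up R (single x (1 : k) - g (f (single x 1))) := by
        rw [bc_single, map_smul, bc_up, sub_eq_add_neg (single x (1 : k)), up_add, up_neg, smul_add,
          smul_neg, up_single, ← sub_eq_add_neg]
        simp
      rw [h2, map_smul, h, smul_zero]
      rw [map_sub, hg, sub_self]
  have h3 := h1 x
  rw [hx, map_zero, sub_zero] at h3
  exact h3

/-- factorization: a linear map over `R` that kills the kernel of `f` over `k` factors through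
the base change of `f` -/
theorem exists_factor {k : Type} [Field k] {R : Type} [CommRing R] [Algebra k R] {X Y : Type}
    {M : Type} [AddCommGroup M] [Module R M]
    (f : (X →₀ k) →ₗ[k] (Y →₀ k)) (t : (X →₀ R) →ₗ[R] M)
    (h : ∀ u : X →₀ k, f u = 0 → t (up R u) = 0) :
    ∃ e : (Y →₀ R) →ₗ[R] M, (∀ x, e (bc R f x) = t x) ∧ LinearMap.range e ≤ LinearMap.range t := by
  obtain ⟨g, hg⟩ := exists_ginv f
  refine ⟨t ∘ₗ bc R g, ?_, ?_⟩
  · intro x
    have h1 : t (x - bc R g (bc R f x)) = 0 := by
      refine ker_bc f t h _ ?_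
      rw [map_sub, bc_comp_apply R f g, bc_comp_apply R (f ∘ₗ g) f]
      have h2 : (f ∘ₗ g) ∘ₗ f = f := LinearMap.ext fun v => hg v
      rw [h2, sub_self]
    rw [map_sub, sub_eq_zero] at h1
    exact h1.symm
  · rintro _ ⟨y, rfl⟩
    exact ⟨bc R g y, rfl⟩

/-! ### restriction to a set of monomials -/

section restriction

variable {R : Type} [CommRing R] {Q : Type}

open Classical in
/-- the part of `x` with exponents in `S` -/
noncomputable def rs (R : Type) [CommRing R] {Q : Type} (S : Set Q) : (Q →₀ R) →ₗ[R] (Q →₀ R) where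
  toFun x := x.filter (fun q => q ∈ S)
  map_add' _ _ := Finsupp.filter_add
  map_smul' _ _ := Finsupp.filter_smul

open Classical in
theorem rs_apply (S : Set Q) (x : Q →₀ R) (q : Q) : rs R S x q = if q ∈ S then x q else 0 := by
  change (x.filter (fun q => q ∈ S)) q = _
  rw [Finsupp.filter_apply]

theorem rs_apply_mem {S : Set Q} (x : Q →₀ R) {q : Q} (h : q ∈ S) : rs R S x q = x q := by
  classical
  rw [rs_apply, if_pos h]

theorem rs_apply_notMem {S : Set Q} (x : Q →₀ R) {q : Q} (h : q ∉ S) : rs R S x q = 0 := by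
  classical
  rw [rs_apply, if_neg h]

theorem rs_single_mem {S : Set Q} {q : Q} (h : q ∈ S) (r : R) :
    rs R S (single q r) = single q r := by
  classical
  ext q'
  by_cases h' : q' ∈ S
  · rw [rs_apply_mem _ h']
  · rw [rs_apply_notMem _ h', Finsupp.single_apply, if_neg]
    rintro rfl
    exact h' h

theorem rs_single_notMem {S : Set Q} {q : Q} (h : q ∉ S) (r : R) :
    rs R S (single q r) = 0 := by
  classical
  ext q'
  by_cases h' : q' ∈ S
  · rw [rs_apply_mem _ h', Finsupp.single_apply, if_neg, Finsupp.zero_apply]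
    rintro rfl
    exact h h'
  · rw [rs_apply_notMem _ h', Finsupp.zero_apply]

theorem rs_up {k : Type} [Field k] [Algebra k R] (S : Set Q) (u : Q →₀ k) :
    rs R S (up R u) = up R (rs k S u) := by
  ext q
  by_cases h : q ∈ S
  · rw [rs_apply_mem _ h, up_apply, up_apply, rs_apply_mem _ h]
  · rw [rs_apply_notMem _ h, up_apply, rs_apply_notMem _ h, map_zero]

theorem bc_rs {k : Type} [Field k] [Algebra k R] (S : Set Q) : bc R (rs k S) = rs R S := by
  refine Finsupp.lhom_ext fun q r => ?_
  have h : single q r = r • up R (single q (1 : k)) := by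
    rw [up_single]
    simp
  rw [bc_single, h, map_smul, rs_up]

/-- the elements with exponents in `S` -/
def sp (R : Type) [CommRing R] {Q : Type} (S : Set Q) : Submodule R (Q →₀ R) where
  carrier := {x | ∀ q, x q ≠ 0 → q ∈ S}
  zero_mem' := fun q h => absurd rfl h
  add_mem' := by
    intro x y hx hy q h
    by_cases h1 : x q = 0
    · by_cases h2 : y q = 0
      · rw [Finsupp.add_apply, h1, h2, add_zero] at h
        exact absurd rfl h
      · exact hy q h2
    · exact hx q h1
  smul_mem' := by
    intro c x hx q h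
    refine hx q fun h1 => h ?_
    rw [Finsupp.smul_apply, h1, smul_zero]

theorem mem_sp {S : Set Q} {x : Q →₀ R} : x ∈ sp R S ↔ ∀ q, x q ≠ 0 → q ∈ S := Iff.rfl

theorem single_mem_sp {S : Set Q} {q : Q} (h : q ∈ S) (r : R) : single q r ∈ sp R S := by
  classical
  intro q' h'
  rw [Finsupp.single_apply] at h'
  by_cases h1 : q = q'
  · rw [← h1]
    exact h
  · rw [if_neg h1] at h'
    exact absurd rfl h'

theorem sp_mono {S T : Set Q} (h : S ⊆ T) : sp R S ≤ sp R T := fun _ hx q hq => h (hx q hq)

theorem rs_mem_sp (S : Set Q) (x : Q →₀ R) : rs R S x ∈ sp R S := by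
  intro q h
  by_contra h'
  exact h (rs_apply_notMem x h')

theorem rs_mem_sp_of_mem (S : Set Q) {T : Set Q} {x : Q →₀ R} (hx : x ∈ sp R T) :
    rs R S x ∈ sp R T := by
  intro q h
  by_cases h' : q ∈ S
  · rw [rs_apply_mem _ h'] at h
    exact hx q h
  · exact absurd (rs_apply_notMem x h') h

theorem rs_of_mem {S : Set Q} {x : Q →₀ R} (hx : x ∈ sp R S) : rs R S x = x := by
  ext q
  by_cases h : q ∈ S
  · rw [rs_apply_mem _ h]
  · rw [rs_apply_notMem _ h]
    by_contra h'
    exact h (hx q (Ne.symm h'))

theorem sub_rs_mem (S : Set Q) (x : Q →₀ R) : x - rs R S x ∈ sp R Sᶜ := by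
  intro q h h'
  rw [Finsupp.sub_apply, rs_apply_mem _ h', sub_self] at h
  exact h rfl

theorem rs_eq_zero_iff {S : Set Q} {x : Q →₀ R} : rs R S x = 0 ↔ x ∈ sp R Sᶜ := by
  constructor
  · intro h q hq hS
    have := DFunLike.congr_fun h q
    rw [rs_apply_mem _ hS] at this
    exact hq this
  · intro h
    ext q
    by_cases hS : q ∈ S
    · rw [rs_apply_mem _ hS]
      by_contra h'
      exact h q h' hS
    · rw [rs_apply_notMem _ hS]
      rfl

/-- an element of `sp R S` is a combination of the monomials in `S` -/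
theorem sp_induction {S : Set Q} {p : (Q →₀ R) → Prop} (h0 : p 0)
    (hadd : ∀ x y, x ∈ sp R S → y ∈ sp R S → p x → p y → p (x + y))
    (hs : ∀ q ∈ S, ∀ r : R, p (single q r)) (x : Q →₀ R) (hx : x ∈ sp R S) : p x := by
  classical
  have key : ∀ x : Q →₀ R, p (rs R S x) := by
    intro x
    induction x using Finsupp.induction_linear with
    | zero => rw [map_zero]; exact h0
    | add u v hu hv =>
      rw [map_add]
      exact hadd _ _ (rs_mem_sp S u) (rs_mem_sp S v) hu hv
    | single q r =>
      by_cases h : q ∈ S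
      · rw [rs_single_mem h]
        exact hs q h r
      · rw [rs_single_notMem h]
        exact h0
  have := key x
  rwa [rs_of_mem hx] at this

/-- a linear map maps `sp R S` to a submodule if it maps the monomials there -/
theorem map_sp {M : Type} [AddCommGroup M] [Module R M] {S : Set Q} {N : Submodule R M}
    (f : (Q →₀ R) →ₗ[R] M) (h : ∀ q ∈ S, f (single q 1) ∈ N) (x : Q →₀ R) (hx : x ∈ sp R S) :
    f x ∈ N := by
  refine sp_induction (p := fun x => f x ∈ N) ?_ ?_ ?_ x hx
  · rw [map_zero]
    exact N.zero_mem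
  · intro x y _ _ h1 h2
    rw [map_add]
    exact N.add_mem h1 h2
  · intro q hq r
    have h1 : single q r = r • single q (1 : R) := by simp
    rw [h1, map_smul]
    exact N.smul_mem r (h q hq)

end restriction

end Pool.Agent.ND.H22
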