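import Pool.Agent.Helper22_ND.Equiv

/-!
# Consequences of the strictness lemma

`C i : Set (Finset P)` are sets of vanishing patterns closed under subsets (the filled conditions).

* `top_degree`: a homogeneous element of `∑ B_i` is an element of `∑ A_i` (same patterns, one step
  lower degree), over the base field;
* `saturated`: `r x ∈ ∑ B_i` implies `x ∈ ∑ B_i` for non zero divisors `r`;
* `specialize`: base change of a relation;
* `comm_of`: how to check that the operators commute.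
-/

set_option autoImplicit false
set_option linter.unusedSectionVars false
set_option linter.unusedVariables false

namespace Pool.Agent.ND.H22

open Finsupp

section functional

variable {k : Type} [Field k] {R : Type} [CommRing R] [Algebra k R] {X Y : Type}

/-- a linear functional on the coefficients -/
noncomputable def dn (ℓ : R →ₗ[k] k) : (X →₀ R) →ₗ[k] (X →₀ k) := Finsupp.mapRange.linearMap ℓ

theorem dn_single (ℓ : R →ₗ[k] k) (x : X) (r : R) : dn ℓ (single x r) = single x (ℓ r) := by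
  unfold dn
  rw [Finsupp.mapRange.linearMap_apply, Finsupp.mapRange_single]

theorem dn_apply (ℓ : R →ₗ[k] k) (u : X →₀ R) (x : X) : dn ℓ u x = ℓ (u x) := by
  unfold dn
  rw [Finsupp.mapRange.linearMap_apply, Finsupp.mapRange_apply]

theorem dn_smul_up (ℓ : R →ₗ[k] k) (r : R) (u : X →₀ k) : dn ℓ (r • up R u) = ℓ r • u := by
  ext x
  rw [dn_apply, Finsupp.smul_apply, up_apply, Finsupp.smul_apply, smul_eq_mul, smul_eq_mul,
    mul_comm, ← Algebra.smul_def, map_smul, smul_eq_mul, mul_comm]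

theorem dn_bc (ℓ : R →ₗ[k] k) (f : (X →₀ k) →ₗ[k] (Y →₀ k)) (u : X →₀ R) :
    dn ℓ (bc R f u) = f (dn ℓ u) := by
  induction u using Finsupp.induction_linear with
  | zero => simp
  | add u v hu hv => rw [map_add, map_add, map_add, map_add, hu, hv]
  | single x r =>
    rw [bc_single, dn_smul_up, dn_single]
    have h : single x (ℓ r) = ℓ r • single x (1 : k) := by simp
    rw [h, map_smul]

theorem dn_mem_sp (ℓ : R →ₗ[k] k) {S : Set X} {u : X →₀ R} (hu : u ∈ sp R S) :
    dn ℓ u ∈ sp k S := by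
  intro q hq
  refine hu q fun h0 => hq ?_
  rw [dn_apply, h0, map_zero]

theorem exists_functional {r : R} (hr : r ≠ 0) : ∃ ℓ : R →ₗ[k] k, ℓ r = 1 := by
  obtain ⟨s, hs⟩ := LinearMap.exists_leftInverse_of_injective
    (LinearMap.toSpanSingleton k R r)
    (LinearMap.ker_eq_bot.2 (fun a b hab => by
      rw [LinearMap.toSpanSingleton_apply, LinearMap.toSpanSingleton_apply] at hab
      exact smul_left_injective k hr hab))
  refine ⟨s, ?_⟩
  have h := LinearMap.congr_fun hs 1
  rw [LinearMap.comp_apply, LinearMap.toSpanSingleton_apply, one_smul] at h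
  exact h

end functional

namespace Dat

variable {k R ι P Q : Type} [Field k] [CommRing R] [Algebra k R] {D : Dat k R ι P Q}

theorem opB_single (i : ι) (q : Q) :
    D.opB i (single q 1) = up R (D.a i (single q 1)) + single q (D.m i q) := by
  rw [opB_apply, opA_single, dg_single, one_mul]

theorem dg_apply {R Q : Type} [CommRing R] (m : Q → R) (x : Q →₀ R) (q : Q) :
    dg m x q = x q * m q := by
  classical
  induction x using Finsupp.induction_linear with
  | zero => simp
  | add u v hu hv => rw [map_add, Finsupp.add_apply, hu, hv, Finsupp.add_apply, add_mul]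
  | single q' r =>
    rw [dg_single, Finsupp.single_apply, Finsupp.single_apply]
    by_cases h : q' = q
    · rw [if_pos h, if_pos h, h]
    · rw [if_neg h, if_neg h, zero_mul]

/-- how to check that the operators commute -/
theorem comm_of (h1 : ∀ i j (x : Q →₀ k), D.a i (D.a j x) = D.a j (D.a i x))
    (h2 : ∀ i j q q', algebraMap k R (D.a i (single q 1) q') * (D.m j q' - D.m j q) =
      algebraMap k R (D.a j (single q 1) q') * (D.m i q' - D.m i q)) (i j : ι) (x : Q →₀ R) :
    D.opB i (D.opB j x) = D.opB j (D.opB i x) := by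
  classical
  induction x using Finsupp.induction_linear with
  | zero => simp
  | add u w hu hw => rw [map_add, map_add, map_add, map_add, hu, hw]
  | single q r =>
    have h3 : single q r = r • single q (1 : R) := by simp
    rw [h3, map_smul, map_smul, map_smul, map_smul]
    congr 1
    have h4 : ∀ i j : ι, D.opB i (D.opB j (single q 1)) =
        up R (D.a i (D.a j (single q 1))) + dg (D.m i) (up R (D.a j (single q 1))) +
          D.m j q • up R (D.a i (single q 1)) + single q (D.m j q * D.m i q) := by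
      intro i j
      have h5 : single q (D.m j q) = D.m j q • single q (1 : R) := by simp
      rw [opB_single, map_add, opB_apply, opA_up, h5, map_smul, opB_single, smul_add,
        Finsupp.smul_single, smul_eq_mul]
      abel
    rw [h4 i j, h4 j i, h1 i j, mul_comm (D.m j q)]
    congr 1
    ext q'
    rw [Finsupp.add_apply, Finsupp.add_apply, Finsupp.add_apply, Finsupp.add_apply, dg_apply,
      dg_apply, Finsupp.smul_apply, Finsupp.smul_apply, up_apply, up_apply, up_apply,
      smul_eq_mul, smul_eq_mul]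
    have h5 := h2 i j q q'
    linear_combination (-1 : R) * h5

variable [Fintype ι]

/-- a homogeneous element of `∑ B_i` is in `∑ A_i`, with the patterns `C i` -/
theorem top_degree_R [CharZero k] [Fintype P] (h : D.Ok) {C : ι → Set (Finset P)}
    (hC : ∀ i, ∀ s ∈ C i, ∀ t, t ⊆ s → t ∈ C i) {d : ℕ} {x : Q →₀ R}
    (hx : x ∈ sp R {q | D.deg q = d}) {η : ι → Q →₀ R} (hη : ∀ i, η i ∈ sp R {q | D.Z q ∈ C i})
    (hrel : x = ∑ i, D.opB i (η i)) :
    ∃ η' : ι → Q →₀ R, (∀ i, η' i ∈ sp R {q | D.Z q ∈ C i ∧ D.deg q + D.e = d}) ∧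
      x = ∑ i, D.opA i (η' i) := by
  obtain ⟨Φ, Ψ, hΦ, hΨ, h1, h2, h3, h4⟩ := strict h
  refine ⟨fun i => rs R {q | D.deg q + D.e = d} (Ψ (η i)), fun i q hq => ⟨?_, ?_⟩, ?_⟩
  · exact hΨ.mem (S := {q | D.Z q ∈ C i}) (fun q hq q' hq' => hC i _ hq _ hq'.2) (hη i) q
      (by
        intro h0
        refine hq ?_
        by_cases h5 : q ∈ {q | D.deg q + D.e = d}
        · rw [rs_apply_mem _ h5, h0]
        · rw [rs_apply_notMem _ h5])
  · exact rs_mem_sp _ _ q hq
  · -- `rs {deg = d} (Ψ x) = x`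
    have h5 : rs R {q | D.deg q = d} (Ψ x) = x := by
      have h6 : Ψ x - x ∈ sp R {q | D.deg q < d} := by
        have h7 : (Ψ - LinearMap.id : (Q →₀ R) →ₗ[R] (Q →₀ R)) x ∈ sp R {q | D.deg q < d} := by
          refine map_sp (S := {q | D.deg q = d}) _ (fun q hq => ?_) x hx
          rw [LinearMap.sub_apply, LinearMap.id_apply]
          refine sp_mono (fun q' hq' => ?_) (hΨ q)
          exact lt_of_lt_of_eq hq'.1 hq
        rwa [LinearMap.sub_apply, LinearMap.id_apply] at h7
      have h8 : rs R {q | D.deg q = d} (Ψ x - x) = 0 := by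
        rw [rs_eq_zero_iff]
        refine sp_mono (fun q hq hq' => ?_) h6
        exact absurd hq' (ne_of_lt hq)
      rw [map_sub, rs_of_mem hx, sub_eq_zero] at h8
      exact h8
    have h6 : ∀ i, rs R {q | D.deg q = d} (D.opA i (Ψ (η i))) =
        D.opA i (rs R {q | D.deg q + D.e = d} (Ψ (η i))) := by
      intro i
      have h7 : rs R {q | D.deg q = d}
          (D.opA i (Ψ (η i) - rs R {q | D.deg q + D.e = d} (Ψ (η i)))) = 0 := by
        rw [rs_eq_zero_iff]
        refine opA_mem h i (S := {q | D.deg q + D.e = d}ᶜ) (T := {q | D.deg q = d}ᶜ)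
          (fun q hq q' hq' _ hd => hq ?_) (sub_rs_mem _ _)
        have h8 : D.deg q' = d := hd
        exact hq'.symm.trans h8
      rw [map_sub, map_sub, sub_eq_zero] at h7
      rw [h7]
      refine rs_of_mem (opA_mem h i (S := {q | D.deg q + D.e = d}) (fun q hq q' hq' _ => ?_)
        (rs_mem_sp _ _))
      have h8 : D.deg q + D.e = d := hq
      exact hq'.trans h8
    conv_lhs => rw [← h5, hrel, map_sum, map_sum]
    refine Finset.sum_congr rfl fun i _ => ?_
    rw [h4, h6]

/-- THE MAIN CONSEQUENCE over the base field: if `r x^` is in `∑ B_i` with `x` homogeneous over `k`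
and `r ≠ 0` in `R`, then `x = ∑ a_i η_i` over `k`, with the same patterns -/
theorem top_degree [CharZero k] [Fintype P] (h : D.Ok) {C : ι → Set (Finset P)}
    (hC : ∀ i, ∀ s ∈ C i, ∀ t, t ⊆ s → t ∈ C i) {d : ℕ} {x : Q →₀ k}
    (hx : x ∈ sp k {q | D.deg q = d}) {r : R} (hr : r ≠ 0) {η : ι → Q →₀ R}
    (hη : ∀ i, η i ∈ sp R {q | D.Z q ∈ C i}) (hrel : r • up R x = ∑ i, D.opB i (η i)) :
    ∃ η' : ι → Q →₀ k, (∀ i, η' i ∈ sp k {q | D.Z q ∈ C i ∧ D.deg q + D.e = d}) ∧
      x = ∑ i, D.a i (η' i) := by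
  have hx' : r • up R x ∈ sp R {q | D.deg q = d} := by
    intro q hq
    refine hx q fun h0 => hq ?_
    rw [Finsupp.smul_apply, up_apply, h0, map_zero, smul_zero]
  obtain ⟨η', h1, h2⟩ := top_degree_R h hC hx' hη hrel
  obtain ⟨ℓ, hℓ⟩ := exists_functional (k := k) hr
  refine ⟨fun i => dn ℓ (η' i), fun i => dn_mem_sp ℓ (h1 i), ?_⟩
  have h3 : dn ℓ (r • up R x) = x := by rw [dn_smul_up, hℓ, one_smul]
  rw [← h3, h2, map_sum]
  exact Finset.sum_congr rfl fun i _ => dn_bc ℓ _ _

/-- the sum map of the `a i` on the patterns `C i` -/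
noncomputable def tot (D : Dat k R ι P Q) (C : ι → Set (Finset P)) :
    ({x : ι × Q // D.Z x.2 ∈ C x.1} →₀ k) →ₗ[k] (Q →₀ k) :=
  Finsupp.linearCombination k (fun x => D.a x.1.1 (single x.1.2 1))

theorem bc_tot_single (C : ι → Set (Finset P)) (x : {x : ι × Q // D.Z x.2 ∈ C x.1}) (r : R) :
    bc R (D.tot C) (single x r) = D.opA x.1.1 (single x.1.2 r) := by
  unfold tot
  rw [bc_single, Finsupp.linearCombination_single, one_smul]
  have h1 : single x.1.2 r = r • single x.1.2 (1 : R) := by simp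
  rw [h1, map_smul, opA_single]

theorem bc_tot_surj (C : ι → Set (Finset P)) {η : ι → Q →₀ R}
    (hη : ∀ i, η i ∈ sp R {q | D.Z q ∈ C i}) : ∃ κ, bc R (D.tot C) κ = ∑ i, D.opA i (η i) := by
  have h1 : ∀ i, ∃ κ, bc R (D.tot C) κ = D.opA i (η i) := by
    intro i
    refine sp_induction (S := {q | D.Z q ∈ C i})
      (p := fun x => ∃ κ, bc R (D.tot C) κ = D.opA i x) ?_ ?_ ?_ (η i) (hη i)
    · exact ⟨0, by rw [map_zero, map_zero]⟩
    · rintro x y _ _ ⟨κ1, h1⟩ ⟨κ2, h2⟩
      exact ⟨κ1 + κ2, by rw [map_add, map_add, h1, h2]⟩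
    · intro q hq r
      exact ⟨single ⟨(i, q), hq⟩ r, bc_tot_single C _ r⟩
  choose κ hκ using h1
  exact ⟨∑ i, κ i, by rw [map_sum]; exact Finset.sum_congr rfl fun i _ => hκ i⟩

open Classical in
theorem bc_tot_range (C : ι → Set (Finset P)) (κ : {x : ι × Q // D.Z x.2 ∈ C x.1} →₀ R) :
    ∃ η : ι → Q →₀ R, (∀ i, η i ∈ sp R {q | D.Z q ∈ C i}) ∧
      bc R (D.tot C) κ = ∑ i, D.opA i (η i) := by
  induction κ using Finsupp.induction_linear with
  | zero => exact ⟨0, fun i => Submodule.zero_mem _, by simp⟩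
  | add u w hu hw =>
    obtain ⟨η1, h1, h2⟩ := hu
    obtain ⟨η2, h3, h4⟩ := hw
    refine ⟨η1 + η2, fun i => Submodule.add_mem _ (h1 i) (h3 i), ?_⟩
    rw [map_add, h2, h4, ← Finset.sum_add_distrib]
    exact Finset.sum_congr rfl fun i _ => by rw [Pi.add_apply, map_add]
  | single x r =>
    refine ⟨fun i => if x.1.1 = i then single x.1.2 r else 0, fun i => ?_, ?_⟩
    · by_cases hi : x.1.1 = i
      · simp only [if_pos hi]
        refine single_mem_sp (S := {q | D.Z q ∈ C i}) ?_ r
        rw [← hi]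
        exact x.2
      · simp only [if_neg hi]
        exact Submodule.zero_mem _
    · rw [bc_tot_single]
      have h1 : ∀ i, D.opA i (if x.1.1 = i then single x.1.2 r else 0) =
          if x.1.1 = i then D.opA x.1.1 (single x.1.2 r) else 0 := by
        intro i
        by_cases hi : x.1.1 = i
        · rw [if_pos hi, if_pos hi, hi]
        · rw [if_neg hi, if_neg hi, map_zero]
      rw [Finset.sum_congr rfl fun i _ => h1 i, Finset.sum_ite_eq Finset.univ x.1.1,
        if_pos (Finset.mem_univ _)]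

/-- saturation: the quotient by `∑ B_i` has no torsion -/
theorem saturated [CharZero k] [Fintype P] (h : D.Ok) {C : ι → Set (Finset P)}
    (hC : ∀ i, ∀ s ∈ C i, ∀ t, t ⊆ s → t ∈ C i) {x : Q →₀ R} {r : R}
    (hr : ∀ a : R, r * a = 0 → a = 0) {η : ι → Q →₀ R}
    (hη : ∀ i, η i ∈ sp R {q | D.Z q ∈ C i}) (hrel : r • x = ∑ i, D.opB i (η i)) :
    ∃ η' : ι → Q →₀ R, (∀ i, η' i ∈ sp R {q | D.Z q ∈ C i}) ∧ x = ∑ i, D.opB i (η' i) := by
  obtain ⟨Φ, Ψ, hΦ, hΨ, h1, h2, h3, h4⟩ := strict h
  have h5 : r • Ψ x = ∑ i, D.opA i (Ψ (η i)) := by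
    rw [← map_smul, hrel, map_sum]
    exact Finset.sum_congr rfl fun i _ => h4 i _
  obtain ⟨κ, hκ⟩ := bc_tot_surj (D := D) C (η := fun i => Ψ (η i))
    (fun i => hΨ.mem (S := {q | D.Z q ∈ C i}) (fun q hq q' hq' => hC i _ hq _ hq'.2) (hη i))
  obtain ⟨g, hg⟩ := exists_ginv (D.tot C)
  have h6 : ∀ κ, bc R (D.tot C) (bc R g (bc R (D.tot C) κ)) = bc R (D.tot C) κ := by
    intro κ
    rw [bc_comp_apply R (D.tot C) g, bc_comp_apply R (D.tot C ∘ₗ g) (D.tot C)]
    have h7 : (D.tot C ∘ₗ g) ∘ₗ D.tot C = D.tot C := LinearMap.ext fun v => hg v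
    rw [h7]
  have h7 : r • Ψ x = bc R (D.tot C) κ := by rw [h5, hκ]
  have h8 : r • (Ψ x - bc R (D.tot C) (bc R g (Ψ x))) = 0 := by
    have h9 := h6 κ
    rw [← h7, map_smul, map_smul] at h9
    rw [smul_sub, h9, sub_self]
  have h9 : Ψ x = bc R (D.tot C) (bc R g (Ψ x)) := by
    rw [← sub_eq_zero]
    ext q
    refine hr _ ?_
    have h10 := DFunLike.congr_fun h8 q
    rwa [Finsupp.smul_apply, smul_eq_mul] at h10
  obtain ⟨ξ, h10, h11⟩ := bc_tot_range (D := D) C (bc R g (Ψ x))
  refine ⟨fun i => Φ (ξ i), fun i => hΦ.mem (S := {q | D.Z q ∈ C i})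
    (fun q hq q' hq' => hC i _ hq _ hq'.2) (h10 i), ?_⟩
  rw [← h1 x, h9, h11, map_sum]
  exact Finset.sum_congr rfl fun i _ => h3 i _

end Dat

/-! ### base change `R → R'` -/

section basechange

variable {k R R' : Type} [Field k] [CommRing R] [Algebra k R] [CommRing R'] [Algebra k R']
  {X Y : Type}

/-- base change of the coefficients -/
noncomputable def mp (φ : R →ₐ[k] R') (u : X →₀ R) : X →₀ R' := u.mapRange φ (map_zero φ)

theorem mp_apply (φ : R →ₐ[k] R') (u : X →₀ R) (x : X) : mp φ u x = φ (u x) := by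
  unfold mp
  rw [Finsupp.mapRange_apply]

theorem mp_zero (φ : R →ₐ[k] R') : mp φ (0 : X →₀ R) = 0 := by
  ext x
  rw [mp_apply, Finsupp.zero_apply, Finsupp.zero_apply, map_zero]

theorem mp_add (φ : R →ₐ[k] R') (u v : X →₀ R) : mp φ (u + v) = mp φ u + mp φ v := by
  ext x
  rw [mp_apply, Finsupp.add_apply, Finsupp.add_apply, mp_apply, mp_apply, map_add]

theorem mp_smul (φ : R →ₐ[k] R') (r : R) (u : X →₀ R) : mp φ (r • u) = φ r • mp φ u := by
  ext x
  rw [mp_apply, Finsupp.smul_apply, Finsupp.smul_apply, mp_apply, smul_eq_mul, smul_eq_mul, map_mul]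

theorem mp_single (φ : R →ₐ[k] R') (x : X) (r : R) : mp φ (single x r) = single x (φ r) := by
  unfold mp
  rw [Finsupp.mapRange_single]

theorem mp_up (φ : R →ₐ[k] R') (u : X →₀ k) : mp φ (up R u) = up R' u := by
  ext x
  rw [mp_apply, up_apply, up_apply, AlgHom.commutes]

theorem mp_sum (φ : R →ₐ[k] R') {ι : Type} (s : Finset ι) (f : ι → X →₀ R) :
    mp φ (∑ i ∈ s, f i) = ∑ i ∈ s, mp φ (f i) := by
  classical
  induction s using Finset.induction_on with
  | empty => simp [mp_zero]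
  | insert i s hi ih => rw [Finset.sum_insert hi, Finset.sum_insert hi, mp_add, ih]

theorem mp_mem_sp (φ : R →ₐ[k] R') {S : Set X} {u : X →₀ R} (hu : u ∈ sp R S) :
    mp φ u ∈ sp R' S := by
  intro q hq
  refine hu q fun h0 => hq ?_
  rw [mp_apply, h0, map_zero]

theorem mp_bc (φ : R →ₐ[k] R') (f : (X →₀ k) →ₗ[k] (Y →₀ k)) (u : X →₀ R) :
    mp φ (bc R f u) = bc R' f (mp φ u) := by
  induction u using Finsupp.induction_linear with
  | zero => rw [map_zero, mp_zero, mp_zero, map_zero]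
  | add u v hu hv => rw [map_add, mp_add, mp_add, map_add, hu, hv]
  | single x r => rw [bc_single, mp_smul, mp_up, mp_single, bc_single]

/-- base change of the data -/
def Dat.map {ι P Q : Type} (D : Dat k R ι P Q) (φ : R →ₐ[k] R') : Dat k R' ι P Q where
  deg := D.deg
  Z := D.Z
  e := D.e
  a := D.a
  m i q := φ (D.m i q)

theorem mp_opB {ι P Q : Type} (D : Dat k R ι P Q) (φ : R →ₐ[k] R') (i : ι) (u : Q →₀ R) :
    mp φ (D.opB i u) = (D.map φ).opB i (mp φ u) := by
  rw [Dat.opB_apply, Dat.opB_apply, mp_add]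
  congr 1
  · exact mp_bc φ _ u
  · ext q
    rw [mp_apply, Dat.dg_apply, Dat.dg_apply, map_mul, mp_apply]
    rfl

/-- specialization of a relation -/
theorem Dat.specialize {ι P Q : Type} [Fintype ι] (D : Dat k R ι P Q) (φ : R →ₐ[k] R')
    {C : ι → Set (Finset P)} {x : Q →₀ R} {η : ι → Q →₀ R}
    (hη : ∀ i, η i ∈ sp R {q | D.Z q ∈ C i}) (hrel : x = ∑ i, D.opB i (η i)) :
    ∃ η' : ι → Q →₀ R', (∀ i, η' i ∈ sp R' {q | (D.map φ).Z q ∈ C i}) ∧
      mp φ x = ∑ i, (D.map φ).opB i (η' i) := by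
  refine ⟨fun i => mp φ (η i), fun i => mp_mem_sp φ (hη i), ?_⟩
  rw [hrel, mp_sum]
  exact Finset.sum_congr rfl fun i _ => mp_opB D φ i _

end basechange

end Pool.Agent.ND.H22
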