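import Pool.Agent.Helper22_ND.Strict

/-!
# The isomorphism of the strictness lemma and its consequences
-/

set_option autoImplicit false
set_option linter.unusedSectionVars false
set_option linter.unusedVariables false

namespace Pool.Agent.ND.H22

open Finsupp

namespace Dat

variable {k R ι P Q : Type} [Field k] [CommRing R] [Algebra k R] {D : Dat k R ι P Q}

theorem low_trans {q q' : Q} (h : q' ∈ D.low q) : D.low q' ⊆ D.low q := fun q'' h' =>
  ⟨lt_trans h'.1 h.1, Finset.Subset.trans h'.2 h.2⟩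

/-- `Φ = id + lower` -/
def Tri (D : Dat k R ι P Q) (Φ : (Q →₀ R) →ₗ[R] (Q →₀ R)) : Prop :=
  ∀ q, Φ (single q 1) - single q 1 ∈ sp R (D.low q)

/-- `Φ` preserves `sp S` if `S` is closed under lower monomials -/
theorem Tri.mem {Φ : (Q →₀ R) →ₗ[R] (Q →₀ R)} (hΦ : D.Tri Φ) {S : Set Q}
    (hS : ∀ q ∈ S, D.low q ⊆ S) {x : Q →₀ R} (hx : x ∈ sp R S) : Φ x ∈ sp R S := by
  refine map_sp Φ (fun q hq => ?_) x hx
  have h1 : Φ (single q 1) = (Φ (single q 1) - single q 1) + single q 1 := by abel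
  rw [h1]
  exact (sp R S).add_mem (sp_mono (hS q hq) (hΦ q)) (single_mem_sp hq _)

/-- a triangular map has a triangular inverse -/
theorem Tri.inv {Φ : (Q →₀ R) →ₗ[R] (Q →₀ R)} (hΦ : D.Tri Φ) :
    ∃ Ψ : (Q →₀ R) →ₗ[R] (Q →₀ R), D.Tri Ψ ∧ (∀ x, Φ (Ψ x) = x) ∧ ∀ x, Ψ (Φ x) = x := by
  classical
  -- `N = id - Φ` lowers the degree
  set N : Module.End R (Q →₀ R) := LinearMap.id - Φ with hN
  have hN1 : ∀ q, N (single q 1) ∈ sp R (D.low q) := by
    intro q
    rw [hN, LinearMap.sub_apply, LinearMap.id_apply, ← neg_sub]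
    exact Submodule.neg_mem _ (hΦ q)
  have hN2 : ∀ (S : Set Q), (∀ q ∈ S, D.low q ⊆ S) → ∀ x ∈ sp R S, N x ∈ sp R S := by
    intro S hS x hx
    exact map_sp N (fun q hq => sp_mono (hS q hq) (hN1 q)) x hx
  have hNlow : ∀ j q, (N ^ (j + 1)) (single q 1) ∈ sp R (D.low q) := by
    intro j q
    induction j with
    | zero => rw [zero_add, pow_one]; exact hN1 q
    | succ j ih =>
      rw [pow_succ', Module.End.mul_apply]
      exact hN2 _ (fun q' hq' => low_trans hq') _ ih
  have hNpow : ∀ j (x : Q →₀ R) (n : ℕ), x ∈ sp R {q | D.deg q < n} →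
      (N ^ j) x ∈ sp R {q | D.deg q + j < n} := by
    intro j
    induction j with
    | zero => intro x n hx; exact hx
    | succ j ih =>
      intro x n hx
      rw [pow_succ', Module.End.mul_apply]
      refine map_sp N (S := {q | D.deg q + j < n}) (fun q hq => ?_) _ (ih x n hx)
      refine sp_mono (fun q' hq' => ?_) (hN1 q)
      have h1 : D.deg q' < D.deg q := hq'.1
      have h2 : D.deg q + j < n := hq
      change D.deg q' + (j + 1) < n
      omega
  have hNzero : ∀ (x : Q →₀ R) (n : ℕ), x ∈ sp R {q | D.deg q < n} →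
      ∀ j, n ≤ j → (N ^ j) x = 0 := by
    intro x n hx j hj
    have h1 := hNpow j x n hx
    ext q
    by_contra h2
    have h3 : D.deg q + j < n := h1 q h2
    omega
  set Ψ : (Q →₀ R) →ₗ[R] (Q →₀ R) := Finsupp.linearCombination R
    (fun q => ∑ j ∈ Finset.range (D.deg q + 1), (N ^ j) (single q 1)) with hΨ
  have hΨ1 : ∀ q (n : ℕ), D.deg q < n →
      Ψ (single q 1) = ∑ j ∈ Finset.range n, (N ^ j) (single q 1) := by
    intro q n hn
    rw [hΨ, Finsupp.linearCombination_single, one_smul]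
    refine Finset.sum_subset (fun j hj => ?_) fun j _ hj => ?_
    · rw [Finset.mem_range] at hj ⊢
      omega
    · rw [Finset.mem_range] at hj
      refine hNzero _ (D.deg q + 1) ?_ j (by omega)
      exact single_mem_sp (show q ∈ {q' | D.deg q' < D.deg q + 1} from Nat.lt_succ_self _) _
  have hΨ2 : ∀ (n : ℕ) (x : Q →₀ R), x ∈ sp R {q | D.deg q < n} →
      Ψ x = ∑ j ∈ Finset.range n, (N ^ j) x := by
    intro n x hx
    refine sp_induction (S := {q | D.deg q < n})
      (p := fun x => Ψ x = ∑ j ∈ Finset.range n, (N ^ j) x) ?_ ?_ ?_ x hx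
    · simp
    · intro x y _ _ h1 h2
      rw [map_add, h1, h2]
      simp only [map_add, Finset.sum_add_distrib]
    · intro q hq r
      have h1 : single q r = r • single q (1 : R) := by simp
      rw [h1, map_smul, hΨ1 q n hq, Finset.smul_sum]
      simp only [map_smul]
  have hbd : ∀ x : Q →₀ R, ∃ n, x ∈ sp R {q | D.deg q < n} := by
    intro x
    refine ⟨x.support.sup D.deg + 1, fun q hq => ?_⟩
    have h1 : D.deg q ≤ x.support.sup D.deg :=
      Finset.le_sup (f := D.deg) (Finsupp.mem_support_iff.2 hq)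
    change D.deg q < _
    omega
  have hΦN : ∀ x, Φ x = x - N x := by
    intro x
    rw [hN, LinearMap.sub_apply, LinearMap.id_apply]
    abel
  have htel : ∀ (n : ℕ) (x : Q →₀ R),
      ∑ j ∈ Finset.range n, (N ^ j) x - ∑ j ∈ Finset.range n, (N ^ (j + 1)) x =
        x - (N ^ n) x := by
    intro n x
    rw [← Finset.sum_sub_distrib, Finset.sum_range_sub' (fun j => (N ^ j) x) n, pow_zero,
      Module.End.one_apply]
  refine ⟨Ψ, fun q => ?_, fun x => ?_, fun x => ?_⟩
  · rw [hΨ, Finsupp.linearCombination_single, one_smul, Finset.sum_range_succ', pow_zero,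
      Module.End.one_apply, add_sub_cancel_right]
    exact Submodule.sum_mem _ fun j _ => hNlow j q
  · obtain ⟨n, hn⟩ := hbd x
    rw [hΨ2 n x hn, hΦN, map_sum]
    have h1 : ∀ j, N ((N ^ j) x) = (N ^ (j + 1)) x := by
      intro j
      rw [pow_succ', Module.End.mul_apply]
    simp only [h1]
    rw [htel, hNzero x n hn n le_rfl, sub_zero]
  · obtain ⟨n, hn⟩ := hbd x
    have hm : Φ x ∈ sp R {q | D.deg q < n} := by
      refine hΦ.mem (S := {q | D.deg q < n}) (fun q hq q' hq' => ?_) hn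
      exact lt_trans hq'.1 hq
    rw [hΨ2 n _ hm, hΦN]
    simp only [map_sub, Finset.sum_sub_distrib]
    have h1 : ∀ j, (N ^ j) (N x) = (N ^ (j + 1)) x := by
      intro j
      rw [pow_succ, Module.End.mul_apply]
    simp only [h1]
    rw [htel, hNzero x n hn n le_rfl, sub_zero]

variable [Fintype ι]

/-- THE STRICTNESS LEMMA: an isomorphism between the homogeneous operators and the operators with
lower order terms, triangular, compatible with all the sets `Z q` -/
theorem strict [CharZero k] [Fintype P] (h : D.Ok) :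
    ∃ Φ Ψ : (Q →₀ R) →ₗ[R] (Q →₀ R), D.Tri Φ ∧ D.Tri Ψ ∧ (∀ x, Φ (Ψ x) = x) ∧
      (∀ x, Ψ (Φ x) = x) ∧ (∀ i x, Φ (D.opA i x) = D.opB i (Φ x)) ∧
      ∀ i x, Ψ (D.opB i x) = D.opA i (Ψ x) := by
  classical
  obtain ⟨F, hF1, hF2⟩ := exists_seq h
  have hF3 : ∀ n q, D.deg q ≤ n → F n (single q 1) = F (D.deg q) (single q 1) := by
    intro n q hq
    induction n with
    | zero =>
      have : D.deg q = 0 := by omega
      rw [this]
    | succ n ih =>
      rcases Nat.lt_or_ge n (D.deg q) with h1 | h1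
      · have : D.deg q = n + 1 := by omega
        rw [this]
      · rw [hF2 n q h1, ih h1]
  set Φ : (Q →₀ R) →ₗ[R] (Q →₀ R) :=
    Finsupp.linearCombination R (fun q => F (D.deg q) (single q 1)) with hΦ
  have hΦ1 : ∀ q, Φ (single q 1) = F (D.deg q) (single q 1) := by
    intro q
    rw [hΦ, Finsupp.linearCombination_single, one_smul]
  have hΦ2 : ∀ (n : ℕ) (x : Q →₀ R), x ∈ sp R {q | D.deg q ≤ n} → Φ x = F n x := by
    intro n x hx
    refine sp_induction (S := {q | D.deg q ≤ n}) (p := fun x => Φ x = F n x) ?_ ?_ ?_ x hx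
    · simp
    · intro x y _ _ h1 h2
      rw [map_add, map_add, h1, h2]
    · intro q hq r
      have h1 : single q r = r • single q (1 : R) := by simp
      rw [h1, map_smul, map_smul, hΦ1, hF3 n q hq]
  have hT : D.Tri Φ := by
    intro q
    rw [hΦ1]
    exact (hF1 (D.deg q)).1 q le_rfl
  have hc : ∀ i x, Φ (D.opA i x) = D.opB i (Φ x) := by
    intro i x
    induction x using Finsupp.induction_linear with
    | zero => simp
    | add u w hu hw => rw [map_add, map_add, map_add, map_add, hu, hw]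
    | single q r =>
      have h1 : single q r = r • single q (1 : R) := by simp
      rw [h1, map_smul, map_smul, map_smul, map_smul]
      congr 1
      have h2 : D.opA i (single q 1) ∈ sp R {q' | D.deg q' ≤ D.deg q + D.e} :=
        sp_mono (fun q' hq' => le_of_eq hq'.1) (opA_single_mem (R := R) h i q)
      rw [hΦ2 (D.deg q + D.e) _ h2, (hF1 (D.deg q + D.e)).2 i q le_rfl, hΦ1,
        hF3 (D.deg q + D.e) q (Nat.le_add_right _ _)]
  obtain ⟨Ψ, h1, h2, h3⟩ := hT.inv
  refine ⟨Φ, Ψ, hT, h1, h2, h3, hc, fun i x => ?_⟩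
  have h4 : Ψ (Φ (D.opA i (Ψ x))) = Ψ (D.opB i (Φ (Ψ x))) := by rw [hc]
  rw [h3, h2] at h4
  exact h4.symm

end Dat

end Pool.Agent.ND.H22
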