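import Pool.Agent.Helper22_ND.Adapt
import Pool.Agent.NDR.Sys

/-!
# The Koszul hypothesis of the strictness lemma from the exactness statement `GLStmt`

`mkS act P A c t p kap N` is the system of the monomials `x^m` with `m - 1 + p` in the real cone of
`A` (coordinates `act`), `p_i = 1` on the filled coordinates `P`.
-/

set_option autoImplicit false
set_option linter.unusedSectionVars false
set_option linter.unusedVariables false

namespace Pool.Agent.ND.H22

open Finsupp
open Pool.Agent.NDR (opA opT opB pr InC pt Reg fac NdC GLStmt thm thm_eq Unit)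

section poly

variable {τ k : Type} [Field k]

/-- the Laurent polynomial with exponents `A` and coefficients `c` -/
noncomputable def poly (A : Finset (τ → ℤ)) (c : (τ → ℤ) → k) : (τ → ℤ) →₀ k :=
  ∑ a ∈ A, single a (c a)

open Classical in
theorem poly_apply (A : Finset (τ → ℤ)) (c : (τ → ℤ) → k) (a : τ → ℤ) :
    poly A c a = if a ∈ A then c a else 0 := by
  unfold poly
  rw [Finsupp.finsetSum_apply]
  by_cases h : a ∈ A
  · rw [if_pos h, Finset.sum_eq_single_of_mem a h, Finsupp.single_eq_same]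
    intro b _ hb
    rw [Finsupp.single_apply, if_neg hb]
  · rw [if_neg h]
    refine Finset.sum_eq_zero fun b hb => ?_
    rw [Finsupp.single_apply, if_neg]
    rintro rfl
    exact h hb

theorem poly_support {A : Finset (τ → ℤ)} {c : (τ → ℤ) → k} (hc : ∀ a ∈ A, c a ≠ 0) :
    (poly A c).support = A := by
  classical
  ext a
  rw [Finsupp.mem_support_iff, poly_apply]
  by_cases h : a ∈ A
  · rw [if_pos h]
    exact ⟨fun _ => h, fun _ => hc a h⟩
  · rw [if_neg h]
    exact ⟨fun h1 => absurd rfl h1, fun h1 => absurd h1 h⟩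

theorem thm_poly [Fintype τ] {A : Finset (τ → ℤ)} {c : (τ → ℤ) → k} (hc : ∀ a ∈ A, c a ≠ 0)
    (v : τ) (h : (τ → ℤ) →₀ k) : thm (poly A c) v h = opA A c v h := by
  classical
  rw [thm_eq, poly_support hc]
  unfold opA
  unfold Finsupp.sum
  refine Finset.sum_congr rfl fun m _ => Finset.sum_congr rfl fun a ha => ?_
  rw [poly_apply, if_pos ha]

end poly

section cone

variable {τ : Type}

theorem inC_add {act : Finset τ} {A : Finset (τ → ℤ)} {p : τ → ℝ} {m : τ → ℤ}
    (h : InC act A (pt p m)) {a : τ → ℤ} (ha : a ∈ A) : InC act A (pt p (m + a)) := by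
  classical
  obtain ⟨l, h1, h2⟩ := h
  refine ⟨fun b => l b + if b = a then 1 else 0, fun b => ?_, fun i hi => ?_⟩
  · beta_reduce
    by_cases hb : b = a
    · rw [if_pos hb]
      have := h1 b
      linarith
    · rw [if_neg hb]
      have := h1 b
      linarith
  · have h3 := h2 i hi
    unfold pt at h3 ⊢
    have h4 : ∑ b ∈ A, (l b + if b = a then (1 : ℝ) else 0) * ((b i : ℤ) : ℝ) =
        ∑ b ∈ A, l b * ((b i : ℤ) : ℝ) + ((a i : ℤ) : ℝ) := by
      have h5 : ∀ b ∈ A, (l b + if b = a then (1 : ℝ) else 0) * ((b i : ℤ) : ℝ) =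
          l b * ((b i : ℤ) : ℝ) + if b = a then ((a i : ℤ) : ℝ) else 0 := by
        intro b _
        by_cases hb : b = a
        · rw [if_pos hb, if_pos hb, hb]
          ring
        · rw [if_neg hb, if_neg hb]
          ring
      rw [Finset.sum_congr rfl h5, Finset.sum_add_distrib, Finset.sum_ite_eq' A a, if_pos ha]
    rw [h4, ← h3, Pi.add_apply, Int.cast_add]
    ring

/-- enlarging the cone -/
theorem inC_mono {act : Finset τ} {A B : Finset (τ → ℤ)} (hAB : A ⊆ B) {q : τ → ℝ}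
    (h : InC act A q) : InC act B q := by
  classical
  obtain ⟨l, h1, h2⟩ := h
  refine ⟨fun b => if b ∈ A then l b else 0, fun b => ?_, fun i hi => ?_⟩
  · beta_reduce
    by_cases hb : b ∈ A
    · rw [if_pos hb]
      exact h1 b
    · rw [if_neg hb]
  · rw [h2 i hi, ← Finset.sum_subset hAB]
    · refine Finset.sum_congr rfl fun a ha => ?_
      beta_reduce
      rw [if_pos ha]
    · intro a _ ha
      beta_reduce
      rw [if_neg ha, zero_mul]

/-- the cone of the exponents with `a_J = 0` -/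
theorem inC_face {act : Finset τ} {A : Finset (τ → ℤ)} {J : Finset τ}
    [DecidablePred fun a : τ → ℤ => ∀ i ∈ J, a i = 0] (hJ : J ⊆ act)
    (hA : ∀ a ∈ A, ∀ i ∈ J, 0 ≤ a i) {q : τ → ℝ} (hq : ∀ i ∈ J, q i = 0) (h : InC act A q) :
    InC act (A.filter fun a => ∀ i ∈ J, a i = 0) q := by
  obtain ⟨l, h1, h2⟩ := h
  refine ⟨l, h1, fun i hi => ?_⟩
  rw [h2 i hi, Finset.sum_filter]
  refine Finset.sum_congr rfl fun a ha => ?_
  by_cases h3 : ∀ i ∈ J, a i = 0
  · rw [if_pos h3]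
  · rw [if_neg h3]
    push Not at h3
    obtain ⟨j, hj, hj'⟩ := h3
    have h4 : ∑ a ∈ A, l a * ((a j : ℤ) : ℝ) = 0 := by rw [← h2 j (hJ hj), hq j hj]
    have h5 := (Finset.sum_eq_zero_iff_of_nonneg (fun b hb => mul_nonneg (h1 b)
      (by exact_mod_cast hA b hb j hj))).1 h4 a ha
    have h6 : l a = 0 := by
      rcases mul_eq_zero.1 h5 with h7 | h7
      · exact h7
      · exact absurd (by exact_mod_cast h7) hj'
    rw [h6, zero_mul]

end cone

section main

variable {k R τ : Type} [Fintype τ] [Field k] [CommRing R] [Algebra k R]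

/-- faces of `f_J` are faces of `f` -/
theorem ndC_face {act : Finset τ} {A : Finset (τ → ℤ)} {c : (τ → ℤ) → k}
    (hc : ∀ a ∈ A, c a ≠ 0) {J : Finset τ} [DecidablePred fun a : τ → ℤ => ∀ i ∈ J, a i = 0]
    (hJ : J ⊆ act) (hA : ∀ a ∈ A, ∀ i ∈ J, 0 ≤ a i) (h : NdC act (poly A c)) :
    NdC act (poly (A.filter fun a => ∀ i ∈ J, a i = 0) c) := by
  classical
  intro u hu hpos hex
  have hc' : ∀ a ∈ A.filter fun a => ∀ i ∈ J, a i = 0, c a ≠ 0 :=
    fun a ha => hc a (Finset.mem_filter.1 ha).1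
  rw [poly_support hc'] at hpos hex
  set M : ℤ := 1 + ∑ a ∈ A, |pr u a| with hM
  set u' : τ → ℤ := fun i => u i + if i ∈ J then M else 0 with hu'
  have hpr : ∀ a : τ → ℤ, pr u' a = pr u a + M * ∑ i ∈ J, a i := by
    intro a
    unfold pr
    simp only [Int.cast_id]
    have h1 : ∀ i, u' i * a i = u i * a i + if i ∈ J then M * a i else 0 := by
      intro i
      rw [hu']
      by_cases hi : i ∈ J
      · simp only [if_pos hi]
        ring
      · simp only [if_neg hi]
        ring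
    rw [Finset.sum_congr rfl fun i _ => h1 i, Finset.sum_add_distrib, Finset.sum_ite_mem,
      Finset.univ_inter, Finset.mul_sum]
  have hbig : ∀ a ∈ A, -M < pr u a := by
    intro a ha
    have h1 : |pr u a| ≤ ∑ a ∈ A, |pr u a| :=
      Finset.single_le_sum (f := fun a => |pr u a|) (fun b _ => abs_nonneg _) ha
    have h2 := neg_abs_le (pr u a)
    omega
  have hin : ∀ a ∈ A, (∀ i ∈ J, a i = 0) → pr u' a = pr u a := by
    intro a _ h1
    rw [hpr, Finset.sum_eq_zero h1, mul_zero, add_zero]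
  have hMpos : 0 < M := by
    have h1 : 0 ≤ ∑ a ∈ A, |pr u a| := Finset.sum_nonneg fun b _ => abs_nonneg _
    omega
  have hout : ∀ a ∈ A, ¬ (∀ i ∈ J, a i = 0) → 0 < pr u' a := by
    intro a ha h1
    push Not at h1
    obtain ⟨j, hj, hj'⟩ := h1
    have h2 : 1 ≤ ∑ i ∈ J, a i := by
      have h3 : a j ≤ ∑ i ∈ J, a i :=
        Finset.single_le_sum (f := fun i => a i) (fun i hi => hA a ha i hi) hj
      have h4 := hA a ha j hj
      omega
    rw [hpr]
    have h3 := hbig a ha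
    have h4 : M * 1 ≤ M * ∑ i ∈ J, a i := mul_le_mul_of_nonneg_left h2 hMpos.le
    linarith
  have h1 := h u' (fun i hi => ?_) (fun a ha => ?_) ?_
  · -- the two faces are equal
    have h2 : fac (poly A c) u' = fac (poly (A.filter fun a => ∀ i ∈ J, a i = 0) c) u := by
      unfold fac
      ext a
      rw [Finsupp.filter_apply, Finsupp.filter_apply, poly_apply, poly_apply]
      by_cases ha : a ∈ A
      · by_cases haJ : ∀ i ∈ J, a i = 0
        · rw [hin a ha haJ, if_pos ha, if_pos (Finset.mem_filter.2 ⟨ha, haJ⟩)]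
        · rw [if_neg (ne_of_gt (hout a ha haJ)),
            if_neg (c := a ∈ A.filter fun a => ∀ i ∈ J, a i = 0)
              (fun h3 => haJ (Finset.mem_filter.1 h3).2)]
          split_ifs <;> rfl
      · rw [if_neg ha, if_neg (c := a ∈ A.filter fun a => ∀ i ∈ J, a i = 0)
          (fun h3 => ha (Finset.mem_filter.1 h3).1)]
        split_ifs <;> rfl
    rwa [h2] at h1
  · rw [hu']
    have h2 : i ∉ J := fun h3 => hi (hJ h3)
    simp only [if_neg h2]
    rw [hu i hi, add_zero]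
  · rw [poly_support hc] at ha
    by_cases haJ : ∀ i ∈ J, a i = 0
    · rw [hin a ha haJ]
      exact hpos a (Finset.mem_filter.2 ⟨ha, haJ⟩)
    · exact (hout a ha haJ).le
  · obtain ⟨a, ha, ha'⟩ := hex
    rw [Finset.mem_filter] at ha
    refine ⟨a, ?_, ?_⟩
    · rw [poly_support hc]
      exact ha.1
    · rw [hin a ha.1 ha.2]
      exact ha'

/-- the system of the monomials with `m - 1 + p` in the cone -/
noncomputable def mkS (act P : Finset τ) (A : Finset (τ → ℤ)) (c : (τ → ℤ) → k) (t : τ → R)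
    (p : τ → ℝ) (kap : τ → ℤ) (N : ℤ) : Sys k R τ where
  act := act
  P := P
  A := A
  c := c
  t := t
  Rg := {m | InC act A (pt p m)}
  kap := kap
  N := N
  b := ⌊∑ i, (kap i : ℝ) * (1 - p i)⌋

/-- pairing a relation with a point of the cone -/
theorem pr_cone {act : Finset τ} {A : Finset (τ → ℤ)} {q : τ → ℝ} {u : τ → ℝ}
    (hu : ∀ i, i ∉ act → u i = 0) {l : (τ → ℤ) → ℝ}
    (h : ∀ i ∈ act, q i = ∑ a ∈ A, l a * ((a i : ℤ) : ℝ)) :
    ∑ i, u i * q i = ∑ a ∈ A, l a * ∑ i, u i * ((a i : ℤ) : ℝ) := by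
  have h1 : ∀ i, u i * q i = ∑ a ∈ A, l a * (u i * ((a i : ℤ) : ℝ)) := by
    intro i
    by_cases hi : i ∈ act
    · rw [h i hi, Finset.mul_sum]
      refine Finset.sum_congr rfl fun a _ => ?_
      ring
    · rw [hu i hi, zero_mul]
      refine (Finset.sum_eq_zero fun a _ => ?_).symm
      rw [zero_mul, mul_zero]
  rw [Finset.sum_congr rfl fun i _ => h1 i, Finset.sum_comm]
  refine Finset.sum_congr rfl fun a _ => ?_
  rw [Finset.mul_sum]

/-- the region hypotheses -/
theorem geo_mkS (act P : Finset τ) (A : Finset (τ → ℤ)) (c : (τ → ℤ) → k) (t : τ → R)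
    (p : τ → ℝ) (kap : τ → ℤ) (N : ℤ) (hp : ∀ i ∈ P, p i = 1) (hPa : P ⊆ act)
    (hA : ∀ a ∈ A, ∀ i ∈ P, 0 ≤ a i) (hN : 0 < N) (hk0 : ∀ i, i ∉ act → kap i = 0)
    (hkap : ∀ a ∈ A, pr kap a = N) : (mkS act P A c t p kap N).Geo where
  stable := fun m hm a ha => inC_add hm ha
  nonneg := by
    rintro m ⟨l, h1, h2⟩ i hi
    have h3 := h2 i (hPa hi)
    unfold pt at h3
    rw [hp i hi] at h3
    have h4 : (0 : ℝ) ≤ ∑ a ∈ A, l a * ((a i : ℤ) : ℝ) :=
      Finset.sum_nonneg fun a ha => mul_nonneg (h1 a) (by exact_mod_cast hA a ha i hi)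
    have h5 : (0 : ℝ) ≤ ((m i : ℤ) : ℝ) := by linarith
    exact_mod_cast h5
  nonnegA := hA
  pos := hN
  homog := hkap
  below := by
    rintro m ⟨l, h1, h2⟩
    change ⌊∑ i, (kap i : ℝ) * (1 - p i)⌋ ≤ pr kap m
    have h3 := pr_cone (u := fun i => (kap i : ℝ)) (q := pt p m)
      (fun i hi => by rw [hk0 i hi]; exact Int.cast_zero) h2
    have h4 : (0 : ℝ) ≤ ∑ i, (kap i : ℝ) * pt p m i := by
      rw [h3]
      refine Finset.sum_nonneg fun a ha => mul_nonneg (h1 a) ?_
      have h5 : ∑ i, (kap i : ℝ) * ((a i : ℤ) : ℝ) = ((pr kap a : ℤ) : ℝ) := by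
        unfold pr
        rw [Int.cast_sum]
        refine Finset.sum_congr rfl fun i _ => ?_
        rw [Int.cast_id, Int.cast_mul]
      rw [h5, hkap a ha]
      exact_mod_cast hN.le
    have h5 : ∑ i, (kap i : ℝ) * pt p m i =
        ((pr kap m : ℤ) : ℝ) - ∑ i, (kap i : ℝ) * (1 - p i) := by
      unfold pr pt
      rw [Int.cast_sum, ← Finset.sum_sub_distrib]
      refine Finset.sum_congr rfl fun i _ => ?_
      rw [Int.cast_id, Int.cast_mul]
      ring
    rw [h5] at h4
    have h6 : ∑ i, (kap i : ℝ) * (1 - p i) ≤ ((pr kap m : ℤ) : ℝ) := by linarith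
    have h7 := Int.floor_le (∑ i, (kap i : ℝ) * (1 - p i))
    exact_mod_cast h7.trans h6

/-- `GLStmt` for one field and one set of coordinates -/
def GLAt (ι K : Type) [Fintype ι] [Field K] : Prop :=
  ∀ (I : Finset ι) (f : (ι → ℤ) →₀ K) (κ : ι → ℤ) (N : ℤ) (p : ι → ℝ), 0 < N →
    (∀ i, i ∉ I → κ i = 0) → (∀ a ∈ f.support, pr κ a = N) → NdC I f →
    ∀ x : ι → (ι → ℤ) →₀ K, (∀ k ∈ I, Reg I f.support p (x k)) →
      ∑ k ∈ I, thm f k (x k) = 0 →
      ∃ (y : ι → ι → (ι → ℤ) →₀ K) (C : Type) (_ : Fintype C) (v : C → ι → ℚ)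
        (z : C → (ι → ℤ) →₀ K),
        (∀ k l, y k l = - y l k) ∧ (∀ k l, Reg I f.support p (y k l)) ∧
        (∀ c, Reg I f.support p (z c)) ∧ (∀ c i, i ∉ I → v c i = 0) ∧
        (∀ c, ∀ a ∈ f.support, pr (v c) a = 0) ∧
        ∀ k ∈ I, x k = ∑ l ∈ I, thm f l (y k l) + ∑ c, ((v c k : ℚ) : K) • z c

theorem glAt_of_GL (h : GLStmt) (ι K : Type) [Fintype ι] [Field K] [CharZero K] : GLAt ι K :=
  fun I f κ N p => h ι K I f κ N p

/-- **The Koszul hypothesis `(H_J)` from `GLStmt`.** -/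
theorem kz_mkS (hGL : GLAt τ k) [CharZero k] (act P : Finset τ) (A : Finset (τ → ℤ))
    (c : (τ → ℤ) → k) (t : τ → R) (p : τ → ℝ) (kap : τ → ℤ) (N : ℤ) (hp : ∀ i ∈ P, p i = 1)
    (hPa : P ⊆ act) (hA : ∀ a ∈ A, ∀ i ∈ P, 0 ≤ a i) (hc : ∀ a ∈ A, c a ≠ 0) (hN : 0 < N)
    (hk0 : ∀ i, i ∉ act → kap i = 0) (hkap : ∀ a ∈ A, pr kap a = N)
    (hNd : NdC act (poly A c))
    (horth : ∀ J ⊆ P, ∀ v : τ → ℚ, (∀ i, i ∉ act → v i = 0) →
      (∀ a ∈ A, (∀ i ∈ J, a i = 0) → pr v a = 0) →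
      ∀ m : τ → ℤ, InC act A (pt p m) → (∀ i ∈ J, m i = 0) →
        ∑ i ∈ act, algebraMap k R ((v i : ℚ) : k) * (((m i : ℤ) : R) + t i) = 0) :
    (mkS act P A c t p kap N).Kz := by
  classical
  intro J hJ x hx hrel
  have hJa : J ⊆ act := hJ.trans hPa
  have hAJ : ∀ a ∈ A, ∀ i ∈ J, 0 ≤ a i := fun a ha i hi => hA a ha i (hJ hi)
  set S := mkS act P A c t p kap N with hS
  set AJ : Finset (τ → ℤ) := A.filter fun a => ∀ i ∈ J, a i = 0 with hAJdef
  have hAJS : S.AJ J = AJ := rfl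
  have hcJ : ∀ a ∈ AJ, c a ≠ 0 := fun a ha => hc a (Finset.mem_filter.1 ha).1
  have hsupp : (poly AJ c).support = AJ := poly_support hcJ
  rw [hAJS] at hrel
  obtain ⟨y, C, _, v, z, h1, h2, h3, h4, h5, h6⟩ := hGL act (poly AJ c) kap N p hN hk0
    (fun a ha => by
      rw [hsupp] at ha
      exact hkap a (Finset.mem_filter.1 ha).1)
    (ndC_face hc hJa hAJ hNd) x
    (fun j _ m hm => by
      rw [Finsupp.mem_support_iff] at hm
      obtain ⟨hm1, hm2⟩ := hx j m hm
      rw [hsupp]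
      refine inC_face hJa hAJ (fun i hi => ?_) hm1
      unfold pt
      rw [hp i (hJ hi), hm2 i hi]
      simp)
    (by
      rw [← hrel]
      exact Finset.sum_congr rfl fun j _ => thm_poly hcJ _ _)
  rw [hsupp] at h2 h3 h5
  have hsub : AJ ⊆ A := Finset.filter_subset _ _
  refine ⟨y, fun j => ∑ e, ((v e j : ℚ) : k) • z e, h1, fun j l m hm => ?_, fun j m hm => ?_,
    fun j hj m hm hmJ => ?_, fun m => ⟨fun a ha hca => ?_, fun m' hm' hm'J => ?_⟩⟩
  · exact inC_mono hsub (h2 j l m (Finsupp.mem_support_iff.2 hm))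
  · rw [Finsupp.finsetSum_apply] at hm
    obtain ⟨e, _, he⟩ := Finset.exists_ne_zero_of_sum_ne_zero hm
    rw [Finsupp.smul_apply, smul_eq_mul] at he
    refine inC_mono hsub (h3 e m (Finsupp.mem_support_iff.2 fun h0 => he ?_))
    rw [h0, mul_zero]
  · rw [h6 j hj, Finsupp.add_apply, hAJS]
    congr 2
    exact Finset.sum_congr rfl fun l _ => thm_poly hcJ _ _
  · rw [hAJS] at ha
    have h7 : ∀ j, (∑ e, ((v e j : ℚ) : k) • z e) m * ((a j : ℤ) : k) =
        ∑ e, z e m * (((v e j * ((a j : ℤ) : ℚ) : ℚ)) : k) := by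
      intro j
      rw [Finsupp.finsetSum_apply, Finset.sum_mul]
      refine Finset.sum_congr rfl fun e _ => ?_
      rw [Finsupp.smul_apply, smul_eq_mul, Rat.cast_mul, Rat.cast_intCast]
      ring
    rw [Finset.sum_congr rfl fun j _ => h7 j, Finset.sum_comm]
    refine Finset.sum_eq_zero fun e _ => ?_
    rw [← Finset.mul_sum]
    have h8 : ∑ j ∈ act, (((v e j * ((a j : ℤ) : ℚ) : ℚ)) : k) = 0 := by
      rw [← Rat.cast_sum]
      have h9 := h5 e a ha
      unfold pr at h9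
      rw [Finset.sum_subset (Finset.subset_univ act), h9, Rat.cast_zero]
      intro i _ hi
      rw [h4 e i hi, zero_mul]
    change z e m * ∑ j ∈ act, _ = 0
    rw [h8, mul_zero]
  · have h7 : ∀ j, algebraMap k R ((∑ e, ((v e j : ℚ) : k) • z e) m) * (((m' j : ℤ) : R) + t j) =
        ∑ e, algebraMap k R (z e m) *
          (algebraMap k R ((v e j : ℚ) : k) * (((m' j : ℤ) : R) + t j)) := by
      intro j
      rw [Finsupp.finsetSum_apply, map_sum, Finset.sum_mul]
      refine Finset.sum_congr rfl fun e _ => ?_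
      rw [Finsupp.smul_apply, smul_eq_mul, map_mul]
      ring
    change ∑ j ∈ act, algebraMap k R ((∑ e, ((v e j : ℚ) : k) • z e) m) *
      (((m' j : ℤ) : R) + t j) = 0
    rw [Finset.sum_congr rfl fun j _ => h7 j, Finset.sum_comm]
    refine Finset.sum_eq_zero fun e _ => ?_
    rw [← Finset.mul_sum]
    have h8 := horth J hJ (v e) (h4 e) (fun a ha haJ => h5 e a (Finset.mem_filter.2 ⟨ha, haJ⟩))
      m' hm' hm'J
    rw [h8, mul_zero]

end main

end Pool.Agent.ND.H22
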