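import Pool.Agent.Helper22_ND.Base

/-!
# The strictness lemma

`M = Q →₀ R` is the span of the monomials `x^q`, `q : Q`, with a degree `deg q : ℕ`; the operators
`A i = bc R (a i)` are defined over the field `k` and homogeneous of degree `e > 0`; the operators
`B i = A i + (diagonal operator)` commute.  `Z q` is the set of the coordinates `j : P` at which
the exponent `q` vanishes; `M_J` is the quotient of `M` by the monomials with `¬ J ⊆ Z q`.
-/

set_option autoImplicit false
set_option linter.unusedSectionVars false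
set_option linter.unusedVariables false

namespace Pool.Agent.ND.H22

open Finsupp

/-- the diagonal operator `x^q ↦ m q x^q` -/
noncomputable def dg {R Q : Type} [CommRing R] (m : Q → R) : (Q →₀ R) →ₗ[R] (Q →₀ R) :=
  Finsupp.linearCombination R (fun q => single q (m q))

theorem dg_single {R Q : Type} [CommRing R] (m : Q → R) (q : Q) (r : R) :
    dg m (single q r) = single q (r * m q) := by
  unfold dg
  rw [Finsupp.linearCombination_single, Finsupp.smul_single, smul_eq_mul]

/-- data of the strictness lemma -/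
structure Dat (k R ι P Q : Type) [Field k] [CommRing R] [Algebra k R] where
  /-- degree -/
  deg : Q → ℕ
  /-- vanishing coordinates -/
  Z : Q → Finset P
  /-- degree of the operators `a i` -/
  e : ℕ
  /-- homogeneous operators over `k` -/
  a : ι → (Q →₀ k) →ₗ[k] (Q →₀ k)
  /-- the diagonal parts -/
  m : ι → Q → R

namespace Dat

variable {k R ι P Q : Type} [Field k] [CommRing R] [Algebra k R] (D : Dat k R ι P Q)

/-- the monomials that do not vanish in the quotient `M_J` -/
def face (J : Finset P) : Set Q := {q | J ⊆ D.Z q}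

/-- the monomials lower than `q` -/
def low (q : Q) : Set Q := {q' | D.deg q' < D.deg q ∧ D.Z q' ⊆ D.Z q}

/-- the homogeneous operators with coefficients in `R` -/
noncomputable def opA (i : ι) : (Q →₀ R) →ₗ[R] (Q →₀ R) := bc R (D.a i)

/-- the operators `A i + m i` -/
noncomputable def opB (i : ι) : (Q →₀ R) →ₗ[R] (Q →₀ R) := bc R (D.a i) + dg (D.m i)

/-- a vector `v` with `∑ v_i a_i = 0` and `∑ v_i m_i = 0` on `M_J` -/
def Rel [Fintype ι] (J : Finset P) (v : ι → k) : Prop :=
  (∀ q q', q ∈ D.face J → q' ∈ D.face J → ∑ i, v i * (D.a i (single q 1)) q' = 0) ∧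
  ∀ q, q ∈ D.face J → ∑ i, algebraMap k R (v i) * D.m i q = 0

/-- hypotheses of the strictness lemma -/
structure Ok [Fintype ι] : Prop where
  he : 0 < D.e
  homog : ∀ i q q', (D.a i (single q 1)) q' ≠ 0 →
    D.deg q' = D.deg q + D.e ∧ D.Z q' ⊆ D.Z q
  comm : ∀ i j x, D.opB i (D.opB j x) = D.opB j (D.opB i x)
  koszul : ∀ (J : Finset P) (d : ℕ) (x : ι → Q →₀ k),
    (∀ i, x i ∈ sp k {q | D.deg q = d ∧ J ⊆ D.Z q}) →
    (∀ q ∈ D.face J, (∑ i, D.a i (x i)) q = 0) →
    ∃ y : ι → ι → Q →₀ k, (∀ i j, y j i = - y i j) ∧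
      (∀ i j, y i j ∈ sp k {q | D.deg q + D.e ≤ d}) ∧
      ∀ q ∈ D.face J, D.Rel J (fun i => x i q - (∑ j, D.a j (y i j)) q)

variable {D}

theorem opA_single (i : ι) (q : Q) : D.opA i (single q 1) = up R (D.a i (single q 1)) := by
  unfold opA
  rw [bc_single, one_smul]

theorem opA_up (i : ι) (u : Q →₀ k) : D.opA i (up R u) = up R (D.a i u) := bc_up R _ _

theorem opB_apply (i : ι) (x : Q →₀ R) : D.opB i x = D.opA i x + dg (D.m i) x := rfl

section
variable [Fintype ι]

theorem opA_single_mem (h : D.Ok) (i : ι) (q : Q) :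
    D.opA i (single q 1) ∈ sp R {q' | D.deg q' = D.deg q + D.e ∧ D.Z q' ⊆ D.Z q} := by
  intro q' hq'
  rw [opA_single, up_apply] at hq'
  refine h.homog i q q' fun h0 => hq' ?_
  rw [h0, map_zero]

theorem dg_single_mem {m : Q → R} {S : Set Q} {q : Q} (hq : q ∈ S) (r : R) :
    dg m (single q r) ∈ sp R S := by
  rw [dg_single]
  exact single_mem_sp hq _

theorem dg_mem {m : Q → R} {S : Set Q} {x : Q →₀ R} (hx : x ∈ sp R S) : dg m x ∈ sp R S :=
  map_sp (dg m) (fun q hq => dg_single_mem hq _) x hx

/-- `A i` maps `sp S` to `sp T` -/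
theorem opA_mem (h : D.Ok) (i : ι) {S T : Set Q}
    (hST : ∀ q ∈ S, ∀ q', D.deg q' = D.deg q + D.e → D.Z q' ⊆ D.Z q → q' ∈ T) {x : Q →₀ R}
    (hx : x ∈ sp R S) : D.opA i x ∈ sp R T :=
  map_sp (D.opA i) (fun q hq => sp_mono (fun q' hq' => hST q hq q' hq'.1 hq'.2)
    (opA_single_mem h i q)) x hx

/-- the monomials that vanish in `M_J` are preserved by `B i` -/
theorem opB_compl (h : D.Ok) (i : ι) (J : Finset P) {x : Q →₀ R}
    (hx : x ∈ sp R (D.face J)ᶜ) : D.opB i x ∈ sp R (D.face J)ᶜ := by
  rw [opB_apply]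
  refine (sp R _).add_mem (opA_mem h i ?_ hx) (dg_mem hx)
  intro q hq q' _ hZ hq'
  exact hq (Finset.Subset.trans hq' hZ)

/-- `v` in `Rel J` kills `M_J` -/
theorem Rel.kills (h : D.Ok) {J : Finset P} {v : ι → k} (hv : D.Rel J v) (u : Q →₀ R) :
    rs R (D.face J) (∑ i, algebraMap k R (v i) • D.opB i u) = 0 := by
  classical
  induction u using Finsupp.induction_linear with
  | zero => simp
  | add u w hu hw =>
    have : ∑ i, algebraMap k R (v i) • D.opB i (u + w) =
        ∑ i, algebraMap k R (v i) • D.opB i u + ∑ i, algebraMap k R (v i) • D.opB i w := by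
      rw [← Finset.sum_add_distrib]
      refine Finset.sum_congr rfl fun i _ => ?_
      rw [map_add, smul_add]
    rw [this, map_add, hu, hw, add_zero]
  | single q r =>
    have h1 : single q r = r • single q (1 : R) := by simp
    have h2 : ∑ i, algebraMap k R (v i) • D.opB i (single q r) =
        r • ∑ i, algebraMap k R (v i) • D.opB i (single q 1) := by
      rw [Finset.smul_sum]
      refine Finset.sum_congr rfl fun i _ => ?_
      rw [h1, map_smul, smul_comm]
    rw [h2, map_smul]
    by_cases hq : q ∈ D.face J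
    · suffices hs : rs R (D.face J) (∑ i, algebraMap k R (v i) • D.opB i (single q 1)) = 0 by
        rw [hs, smul_zero]
      ext q'
      by_cases hq' : q' ∈ D.face J
      · rw [rs_apply_mem _ hq', Finsupp.finsetSum_apply, Finsupp.zero_apply]
        have h3 : ∀ i, (algebraMap k R (v i) • D.opB i (single q 1)) q' =
            algebraMap k R (v i * (D.a i (single q 1)) q') +
              (if q = q' then algebraMap k R (v i) * D.m i q else 0) := by
          intro i
          rw [Finsupp.smul_apply, opB_apply, opA_single, Finsupp.add_apply, up_apply, dg_single,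
            smul_eq_mul, mul_add, ← map_mul, Finsupp.single_apply, one_mul]
          by_cases hqq : q = q'
          · rw [if_pos hqq, if_pos hqq]
          · rw [if_neg hqq, if_neg hqq, mul_zero]
        rw [Finset.sum_congr rfl fun i _ => h3 i, Finset.sum_add_distrib, ← map_sum,
          hv.1 q q' hq hq', map_zero, zero_add]
        by_cases hqq : q = q'
        · simp only [if_pos hqq]
          exact hv.2 q hq
        · simp only [if_neg hqq, Finset.sum_const_zero]
      · rw [rs_apply_notMem _ hq']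
        rfl
    · have h3 : rs R (D.face J) (∑ i, algebraMap k R (v i) • D.opB i (single q 1)) = 0 := by
        rw [rs_eq_zero_iff]
        refine Submodule.sum_mem _ fun i _ => (sp R _).smul_mem _ (opB_compl h i J ?_)
        exact single_mem_sp hq _
      rw [h3, smul_zero]

/-- an approximation of the isomorphism up to degree `n` -/
def Good (D : Dat k R ι P Q) (n : ℕ) (Φ : (Q →₀ R) →ₗ[R] (Q →₀ R)) : Prop :=
  (∀ q, D.deg q ≤ n → Φ (single q 1) - single q 1 ∈ sp R (D.low q)) ∧
  ∀ i q, D.deg q + D.e ≤ n → Φ (D.opA i (single q 1)) = D.opB i (Φ (single q 1))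

theorem Good.comm {n : ℕ} {Φ : (Q →₀ R) →ₗ[R] (Q →₀ R)} (hΦ : D.Good n Φ) (i : ι)
    {x : Q →₀ R} (hx : x ∈ sp R {q | D.deg q + D.e ≤ n}) : Φ (D.opA i x) = D.opB i (Φ x) := by
  refine sp_induction (S := {q | D.deg q + D.e ≤ n})
    (p := fun x => Φ (D.opA i x) = D.opB i (Φ x)) ?_ ?_ ?_ x hx
  · simp
  · intro x y _ _ h1 h2
    rw [map_add, map_add, map_add, map_add, h1, h2]
  · intro q hq r
    have h1 : single q r = r • single q (1 : R) := by simp
    rw [h1, map_smul, map_smul, map_smul, map_smul, hΦ.2 i q hq]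

/-- `Φ` preserves `sp S` if `S` is closed under lower monomials -/
theorem Good.mem {n : ℕ} {Φ : (Q →₀ R) →ₗ[R] (Q →₀ R)} (hΦ : D.Good n Φ) {S T : Set Q}
    (hS : ∀ q ∈ S, D.deg q ≤ n) (hST : ∀ q ∈ S, q ∈ T) (hL : ∀ q ∈ S, D.low q ⊆ T) {x : Q →₀ R}
    (hx : x ∈ sp R S) : Φ x ∈ sp R T := by
  refine map_sp Φ (fun q hq => ?_) x hx
  have h1 : Φ (single q 1) = (Φ (single q 1) - single q 1) + single q 1 := by abel
  rw [h1]
  exact (sp R T).add_mem (sp_mono (hL q hq) (hΦ.1 q (hS q hq))) (single_mem_sp (hST q hq) _)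

/-- pairs `(i, q)` such that `a i (x^q)` has degree `n` -/
abbrev Pairs (D : Dat k R ι P Q) (n : ℕ) : Type := {x : ι × Q // D.deg x.2 + D.e = n}

/-- the map `(x_i) ↦ ∑ a_i x_i` in degree `n` -/
noncomputable def src (D : Dat k R ι P Q) (n : ℕ) : (D.Pairs n →₀ k) →ₗ[k] (Q →₀ k) :=
  Finsupp.linearCombination k (fun x => D.a x.1.1 (single x.1.2 1))

/-- the map `(x_i) ↦ ∑ B_i Φ x_i - A_i x_i` -/
noncomputable def tgt (D : Dat k R ι P Q) (n : ℕ) (Φ : (Q →₀ R) →ₗ[R] (Q →₀ R)) :
    (D.Pairs n →₀ R) →ₗ[R] (Q →₀ R) :=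
  Finsupp.linearCombination R
    (fun x => D.opB x.1.1 (Φ (single x.1.2 1)) - D.opA x.1.1 (single x.1.2 1))

open Classical in
/-- the component `x_i` -/
noncomputable def cmp (D : Dat k R ι P Q) (n : ℕ) (i : ι) : (D.Pairs n →₀ k) →ₗ[k] (Q →₀ k) :=
  Finsupp.linearCombination k (fun x => if x.1.1 = i then single x.1.2 1 else 0)

theorem src_eq (n : ℕ) (κ : D.Pairs n →₀ k) : D.src n κ = ∑ i, D.a i (D.cmp n i κ) := by
  classical
  induction κ using Finsupp.induction_linear with
  | zero => simp
  | add u w hu hw =>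
    rw [map_add, hu, hw, ← Finset.sum_add_distrib]
    refine Finset.sum_congr rfl fun i _ => ?_
    rw [map_add, map_add]
  | single x c =>
    unfold src cmp
    rw [Finsupp.linearCombination_single]
    have h1 : ∀ i, D.a i ((Finsupp.linearCombination k
        (fun x : D.Pairs n => if x.1.1 = i then single x.1.2 (1 : k) else 0)) (single x c)) =
        if x.1.1 = i then c • D.a i (single x.1.2 1) else 0 := by
      intro i
      rw [Finsupp.linearCombination_single, map_smul]
      by_cases hi : x.1.1 = i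
      · rw [if_pos hi, if_pos hi]
      · rw [if_neg hi, if_neg hi, map_zero, smul_zero]
    rw [Finset.sum_congr rfl fun i _ => h1 i, Finset.sum_ite_eq Finset.univ x.1.1,
      if_pos (Finset.mem_univ _)]

theorem cmp_mem (n : ℕ) (i : ι) (κ : D.Pairs n →₀ k) :
    D.cmp n i κ ∈ sp k {q | D.deg q + D.e = n} := by
  classical
  induction κ using Finsupp.induction_linear with
  | zero => rw [map_zero]; exact Submodule.zero_mem _
  | add u w hu hw =>
    rw [map_add]
    exact Submodule.add_mem _ hu hw
  | single x c =>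
    unfold cmp
    rw [Finsupp.linearCombination_single]
    refine Submodule.smul_mem _ _ ?_
    by_cases hi : x.1.1 = i
    · rw [if_pos hi]
      exact single_mem_sp (R := k) (S := {q | D.deg q + D.e = n}) x.2 _
    · rw [if_neg hi]
      exact Submodule.zero_mem _

theorem tgt_up (n : ℕ) (Φ : (Q →₀ R) →ₗ[R] (Q →₀ R)) (κ : D.Pairs n →₀ k) :
    D.tgt n Φ (up R κ) =
      ∑ i, D.opB i (Φ (up R (D.cmp n i κ))) - up R (D.src n κ) := by
  classical
  induction κ using Finsupp.induction_linear with
  | zero => simp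
  | add u w hu hw =>
    rw [up_add, map_add, hu, hw, map_add, up_add]
    have : ∑ i, D.opB i (Φ (up R (D.cmp n i (u + w)))) =
        ∑ i, D.opB i (Φ (up R (D.cmp n i u))) + ∑ i, D.opB i (Φ (up R (D.cmp n i w))) := by
      rw [← Finset.sum_add_distrib]
      refine Finset.sum_congr rfl fun i _ => ?_
      rw [map_add, up_add, map_add, map_add]
    rw [this]
    abel
  | single x c =>
    unfold tgt src cmp
    rw [up_single, Finsupp.linearCombination_single, Finsupp.linearCombination_single, up_smul,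
      smul_sub, opA_single]
    have h1 : ∀ i, D.opB i (Φ (up R ((Finsupp.linearCombination k
        (fun x : D.Pairs n => if x.1.1 = i then single x.1.2 (1 : k) else 0)) (single x c)))) =
        if x.1.1 = i then algebraMap k R c • D.opB i (Φ (single x.1.2 1)) else 0 := by
      intro i
      rw [Finsupp.linearCombination_single, up_smul, map_smul, map_smul]
      by_cases hi : x.1.1 = i
      · rw [if_pos hi, if_pos hi, up_single, map_one]
      · rw [if_neg hi, if_neg hi, up_zero, map_zero, map_zero, smul_zero]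
    rw [Finset.sum_congr rfl fun i _ => h1 i, Finset.sum_ite_eq Finset.univ x.1.1,
      if_pos (Finset.mem_univ _)]

theorem Good.single_mem {n : ℕ} {Φ : (Q →₀ R) →ₗ[R] (Q →₀ R)} (hΦ : D.Good n Φ) {q : Q}
    (hq : D.deg q ≤ n) {T : Set Q} (h1 : q ∈ T) (h2 : D.low q ⊆ T) : Φ (single q 1) ∈ sp R T := by
  have h3 : Φ (single q 1) = (Φ (single q 1) - single q 1) + single q 1 := by abel
  rw [h3]
  exact (sp R T).add_mem (sp_mono h2 (hΦ.1 q hq)) (single_mem_sp h1 _)

/-- the main claim: in `M_J` the map `∑ A_i x_i ↦ ∑ B_i Φ x_i` is well defined -/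
theorem claim [CharZero k] (h : D.Ok) {n : ℕ} {Φ : (Q →₀ R) →ₗ[R] (Q →₀ R)} (hΦ : D.Good n Φ)
    (J : Finset P) (κ : D.Pairs (n + 1) →₀ k)
    (hκ : rs k (D.face J) (D.src (n + 1) κ) = 0) :
    rs R (D.face J) (D.tgt (n + 1) Φ (up R κ)) = 0 := by
  classical
  by_cases hen : D.e ≤ n + 1
  swap
  · have : κ = 0 := by
      ext x
      have := x.2
      omega
    rw [this, up_zero, map_zero, map_zero]
  obtain ⟨d, hd⟩ : ∃ d, d + D.e = n + 1 := ⟨n + 1 - D.e, by omega⟩
  have he := h.he
  have hdn : d ≤ n := by omega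
  -- the components
  set c : ι → Q →₀ k := fun i => D.cmp (n + 1) i κ with hc
  have hcmem : ∀ i, c i ∈ sp k {q | D.deg q = d} := by
    intro i
    refine sp_mono (fun q hq => ?_) (cmp_mem (n + 1) i κ)
    have : D.deg q + D.e = n + 1 := hq
    change D.deg q = d
    omega
  set x : ι → Q →₀ k := fun i => rs k (D.face J) (c i) with hx
  have hxmem : ∀ i, x i ∈ sp k {q | D.deg q = d ∧ J ⊆ D.Z q} := by
    intro i q hq
    refine ⟨rs_mem_sp_of_mem _ (hcmem i) q hq, rs_mem_sp _ _ q hq⟩
  -- over `k` the operators `a i` preserve the complement of the face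
  have hacompl : ∀ i (u : Q →₀ k), u ∈ sp k (D.face J)ᶜ → D.a i u ∈ sp k (D.face J)ᶜ := by
    intro i u hu
    refine map_sp (D.a i) (fun q hq => ?_) u hu
    intro q' hq' hJ
    exact hq (Finset.Subset.trans hJ (h.homog i q q' hq').2)
  have hadeg : ∀ i (u : Q →₀ k), u ∈ sp k {q | D.deg q + D.e ≤ d} →
      D.a i u ∈ sp k {q | D.deg q ≤ d} := by
    intro i u hu
    refine map_sp (D.a i) (fun q hq => ?_) u hu
    intro q' hq'
    have h1 := (h.homog i q q' hq').1
    have h2 : D.deg q + D.e ≤ d := hq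
    change D.deg q' ≤ d
    omega
  have hsum : ∀ q ∈ D.face J, (∑ i, D.a i (x i)) q = 0 := by
    intro q hq
    have h1 : D.src (n + 1) κ - ∑ i, D.a i (x i) ∈ sp k (D.face J)ᶜ := by
      rw [src_eq, ← Finset.sum_sub_distrib]
      refine Submodule.sum_mem _ fun i _ => ?_
      rw [← map_sub]
      exact hacompl i _ (sub_rs_mem _ _)
    have h2 : rs k (D.face J) (D.src (n + 1) κ - ∑ i, D.a i (x i)) = 0 := rs_eq_zero_iff.2 h1
    rw [map_sub, hκ, zero_sub, neg_eq_zero] at h2
    have h3 := DFunLike.congr_fun h2 q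
    rwa [rs_apply_mem _ hq] at h3
  obtain ⟨y, hy1, hy2, hy3⟩ := h.koszul J d x hxmem hsum
  set w : ι → Q →₀ k := fun i => x i - ∑ j, D.a j (y i j) with hw
  have hwdeg : ∀ i, w i ∈ sp k {q | D.deg q ≤ d} := by
    intro i
    refine Submodule.sub_mem _ (sp_mono (fun q hq => ?_) (hxmem i))
      (Submodule.sum_mem _ fun j _ => hadeg j _ (hy2 i j))
    exact le_of_eq hq.1
  set w' : ι → Q →₀ k := fun i => rs k (D.face J) (w i) with hw'
  -- the vectors `(w' i q)_i` are in `Rel J`
  have hrel : ∀ q, D.Rel J (fun i => w' i q) := by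
    intro q
    by_cases hq : q ∈ D.face J
    · have h1 : (fun i => w' i q) = fun i => x i q - (∑ j, D.a j (y i j)) q := by
        funext i
        rw [hw', hw]
        simp only
        rw [rs_apply_mem _ hq, Finsupp.sub_apply]
      rw [h1]
      exact hy3 q hq
    · have h1 : (fun i => w' i q) = fun _ => 0 := by
        funext i
        rw [hw']
        simp only
        rw [rs_apply_notMem _ hq]
      rw [h1]
      refine ⟨fun q q' _ _ => ?_, fun q _ => ?_⟩
      · simp
      · simp
  -- elements of the complement of the face do not matter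
  have hkill : ∀ i (u : Q →₀ k), u ∈ sp k {q | D.deg q ≤ d} → u ∈ sp k (D.face J)ᶜ →
      D.opB i (Φ (up R u)) ∈ sp R (D.face J)ᶜ := by
    intro i u hu1 hu2
    refine opB_compl h i J ?_
    refine hΦ.mem (S := {q | D.deg q ≤ d ∧ q ∈ (D.face J)ᶜ}) (fun q hq => le_trans hq.1 hdn)
      (fun q hq => hq.2) (fun q hq q' hq' hJ => hq.2 (Finset.Subset.trans hJ hq'.2)) ?_
    intro q hq
    rw [up_apply] at hq
    have h1 : u q ≠ 0 := fun h0 => hq (by rw [h0, map_zero])
    exact ⟨hu1 q h1, hu2 q h1⟩
  -- decomposition of `c i`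
  have hdec : ∀ i, c i = (∑ j, D.a j (y i j)) + w' i + ((c i - x i) + (w i - w' i)) := by
    intro i
    have : w i = x i - ∑ j, D.a j (y i j) := rfl
    rw [this]
    abel
  have hmain : rs R (D.face J) (∑ i, D.opB i (Φ (up R (c i)))) = 0 := by
    have h1 : ∀ i, D.opB i (Φ (up R (c i))) =
        (∑ j, D.opB i (D.opB j (Φ (up R (y i j))))) + D.opB i (Φ (up R (w' i))) +
          D.opB i (Φ (up R ((c i - x i) + (w i - w' i)))) := by
      intro i
      conv_lhs => rw [hdec i]
      rw [up_add, up_add, map_add, map_add, map_add, map_add, up_sum, map_sum, map_sum]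
      congr 2
      refine Finset.sum_congr rfl fun j _ => ?_
      rw [← opA_up, hΦ.comm j]
      intro q hq
      rw [up_apply] at hq
      have h1 : y i j q ≠ 0 := fun h0 => hq (by rw [h0, map_zero])
      have h2 : D.deg q + D.e ≤ d := hy2 i j q h1
      change D.deg q + D.e ≤ n
      omega
    rw [Finset.sum_congr rfl fun i _ => h1 i, Finset.sum_add_distrib, Finset.sum_add_distrib,
      map_add, map_add]
    -- the antisymmetric part
    have h2 : ∑ i, ∑ j, D.opB i (D.opB j (Φ (up R (y i j)))) = 0 := by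
      set s := ∑ i, ∑ j, D.opB i (D.opB j (Φ (up R (y i j)))) with hs
      have h3 : s = -s := by
        conv_lhs => rw [hs, Finset.sum_comm]
        rw [hs, ← Finset.sum_neg_distrib]
        refine Finset.sum_congr rfl fun i _ => ?_
        rw [← Finset.sum_neg_distrib]
        refine Finset.sum_congr rfl fun j _ => ?_
        rw [h.comm j i, hy1 i j, up_neg, map_neg, map_neg, map_neg]
      have h4 : (2 : R) • s = 0 := by
        rw [two_smul]
        nth_rewrite 2 [h3]
        abel
      have h5 : algebraMap k R (2 : k)⁻¹ • (2 : R) • s = s := by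
        rw [smul_smul]
        have : algebraMap k R (2 : k)⁻¹ * (2 : R) = 1 := by
          have h6 : (2 : R) = algebraMap k R 2 := (map_ofNat (algebraMap k R) 2).symm
          rw [h6, ← map_mul, inv_mul_cancel₀ two_ne_zero, map_one]
        rw [this, one_smul]
      rw [← h5, h4, smul_zero]
    -- the part in `Rel J`
    have h3 : rs R (D.face J) (∑ i, D.opB i (Φ (up R (w' i)))) = 0 := by
      set U : Finset Q := Finset.univ.biUnion fun i => (w' i).support with hU
      have h4 : ∀ i, D.opB i (Φ (up R (w' i))) =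
          ∑ q ∈ U, algebraMap k R (w' i q) • D.opB i (Φ (single q 1)) := by
        intro i
        have h5 : w' i = ∑ q ∈ U, single q (w' i q) := by
          have h6 : (w' i).support ⊆ U := by
            intro q hq
            rw [hU, Finset.mem_biUnion]
            exact ⟨i, Finset.mem_univ _, hq⟩
          conv_lhs => rw [← Finsupp.sum_single (w' i)]
          rw [Finsupp.sum_of_support_subset _ h6 _ fun q _ => single_zero q]
        conv_lhs => rw [h5]
        rw [up_sum, map_sum, map_sum]
        refine Finset.sum_congr rfl fun q _ => ?_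
        rw [up_single]
        have h6 : single q (algebraMap k R (w' i q)) =
            algebraMap k R (w' i q) • single q (1 : R) := by
          rw [Finsupp.smul_single, smul_eq_mul, mul_one]
        rw [h6, map_smul, map_smul]
      rw [Finset.sum_congr rfl fun i _ => h4 i, Finset.sum_comm, map_sum]
      refine Finset.sum_eq_zero fun q _ => ?_
      exact Rel.kills h (hrel q) _
    -- the rest
    have h4 : rs R (D.face J) (∑ i, D.opB i (Φ (up R ((c i - x i) + (w i - w' i))))) = 0 := by
      rw [rs_eq_zero_iff]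
      refine Submodule.sum_mem _ fun i _ => hkill i _ ?_ ?_
      · refine Submodule.add_mem _ (Submodule.sub_mem _ ?_ ?_) (Submodule.sub_mem _ (hwdeg i) ?_)
        · exact sp_mono (fun q hq => le_of_eq hq) (hcmem i)
        · exact sp_mono (fun q hq => le_of_eq hq.1) (hxmem i)
        · exact rs_mem_sp_of_mem _ (hwdeg i)
      · exact Submodule.add_mem _ (sub_rs_mem _ _) (sub_rs_mem _ _)
    rw [h2, h3, h4, map_zero, add_zero, add_zero]
  rw [tgt_up, map_sub, hmain, rs_up, hκ, up_zero, sub_zero]

/-- the images of `tgt` have degree `≤ n` -/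
theorem tgt_mem (h : D.Ok) {n : ℕ} {Φ : (Q →₀ R) →ₗ[R] (Q →₀ R)} (hΦ : D.Good n Φ)
    (κ : D.Pairs (n + 1) →₀ R) : D.tgt (n + 1) Φ κ ∈ sp R {q | D.deg q < n + 1} := by
  have he := h.he
  induction κ using Finsupp.induction_linear with
  | zero => rw [map_zero]; exact Submodule.zero_mem _
  | add u w hu hw =>
    rw [map_add]
    exact Submodule.add_mem _ hu hw
  | single x c =>
    unfold tgt
    rw [Finsupp.linearCombination_single]
    refine Submodule.smul_mem _ _ ?_
    obtain ⟨⟨i, q⟩, hq⟩ := x
    have hq' : D.deg q + D.e = n + 1 := hq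
    have hqn : D.deg q ≤ n := by omega
    have h1 : D.opB i (Φ (single q 1)) - D.opA i (single q 1) =
        D.opA i (Φ (single q 1) - single q 1) + dg (D.m i) (Φ (single q 1)) := by
      rw [opB_apply, map_sub]
      abel
    change D.opB i (Φ (single q 1)) - D.opA i (single q 1) ∈ _
    rw [h1]
    refine Submodule.add_mem _ (opA_mem h i (S := D.low q) ?_ (hΦ.1 q hqn)) (dg_mem ?_)
    · intro q1 hq1 q2 hq2 _
      have h2 : D.deg q1 < D.deg q := hq1.1
      change D.deg q2 < n + 1
      omega
    · refine hΦ.single_mem hqn ?_ ?_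
      · change D.deg q < n + 1
        omega
      · intro q1 hq1
        have h2 : D.deg q1 < D.deg q := hq1.1
        change D.deg q1 < n + 1
        omega

/-- a vector is the sum of its parts with `Z = J` -/
theorem sum_parts [Fintype P] (D : Dat k R ι P Q) (x : Q →₀ R) :
    ∑ J : Finset P, rs R {q | D.Z q = J} x = x := by
  classical
  ext q
  rw [Finsupp.finsetSum_apply, Finset.sum_eq_single (D.Z q)]
  · rw [rs_apply_mem _ (show q ∈ {q' | D.Z q' = D.Z q} from rfl)]
  · intro J _ hJ
    exact rs_apply_notMem _ fun h => hJ (show D.Z q = J from h).symm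
  · intro h
    exact absurd (Finset.mem_univ _) h

/-- the step of the construction -/
theorem step [CharZero k] [Fintype P] (h : D.Ok) {n : ℕ} {Φ : (Q →₀ R) →ₗ[R] (Q →₀ R)}
    (hΦ : D.Good n Φ) :
    ∃ Φ' : (Q →₀ R) →ₗ[R] (Q →₀ R), D.Good (n + 1) Φ' ∧
      ∀ q, D.deg q ≤ n → Φ' (single q 1) = Φ (single q 1) := by
  classical
  have he := h.he
  have hex : ∀ J : Finset P, ∃ e : (Q →₀ R) →ₗ[R] (Q →₀ R),
      (∀ x, e (bc R (rs k (D.face J) ∘ₗ D.src (n + 1)) x) =
        (rs R {q | D.Z q = J} ∘ₗ D.tgt (n + 1) Φ) x) ∧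
      LinearMap.range e ≤ LinearMap.range (rs R {q | D.Z q = J} ∘ₗ D.tgt (n + 1) Φ) := by
    intro J
    refine exists_factor _ _ fun κ hκ => ?_
    have h1 := claim h hΦ J κ hκ
    ext q
    rw [LinearMap.comp_apply]
    by_cases hq : D.Z q = J
    · rw [rs_apply_mem _ (show q ∈ {q | D.Z q = J} from hq)]
      have h2 := DFunLike.congr_fun h1 q
      rwa [rs_apply_mem _ (show q ∈ D.face J from hq ▸ Finset.Subset.refl _)] at h2
    · rw [rs_apply_notMem _ (show q ∉ {q | D.Z q = J} from hq)]
      rfl
  choose e he1 he2 using hex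
  set Φ' : (Q →₀ R) →ₗ[R] (Q →₀ R) := Finsupp.linearCombination R (fun q =>
    if D.deg q = n + 1 then single q 1 + ∑ J : Finset P, e J (rs R (D.face J) (single q 1))
    else Φ (single q 1)) with hΦ'
  have hs1 : ∀ q, D.deg q ≤ n → Φ' (single q 1) = Φ (single q 1) := by
    intro q hq
    rw [hΦ', Finsupp.linearCombination_single, one_smul, if_neg (by omega)]
  have hs2 : ∀ q, D.deg q = n + 1 →
      Φ' (single q 1) = single q 1 + ∑ J : Finset P, e J (rs R (D.face J) (single q 1)) := by
    intro q hq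
    rw [hΦ', Finsupp.linearCombination_single, one_smul, if_pos hq]
  -- `Φ'` on the elements of degree `≤ n` and of degree `n + 1`
  have hu1 : ∀ u ∈ sp R {q | D.deg q ≤ n}, Φ' u = Φ u := by
    intro u hu
    refine sp_induction (S := {q | D.deg q ≤ n}) (p := fun x => Φ' x = Φ x) ?_ ?_ ?_ u hu
    · simp
    · intro x y _ _ h1 h2
      rw [map_add, map_add, h1, h2]
    · intro q hq r
      have h1 : single q r = r • single q (1 : R) := by simp
      rw [h1, map_smul, map_smul, hs1 q hq]
  have hu2 : ∀ u ∈ sp R {q | D.deg q = n + 1},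
      Φ' u = u + ∑ J : Finset P, e J (rs R (D.face J) u) := by
    intro u hu
    refine sp_induction (S := {q | D.deg q = n + 1})
      (p := fun x => Φ' x = x + ∑ J : Finset P, e J (rs R (D.face J) x)) ?_ ?_ ?_ u hu
    · simp
    · intro x y _ _ h1 h2
      rw [map_add, h1, h2]
      simp only [map_add, Finset.sum_add_distrib]
      abel
    · intro q hq r
      have h1 : single q r = r • single q (1 : R) := by simp
      rw [h1, map_smul, hs2 q hq, smul_add, Finset.smul_sum]
      simp only [map_smul]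
  refine ⟨Φ', ⟨fun q hq => ?_, fun i q hq => ?_⟩, hs1⟩
  · rcases Nat.lt_or_ge n (D.deg q) with hlt | hle
    · have hqn : D.deg q = n + 1 := by omega
      rw [hs2 q hqn, add_sub_cancel_left]
      refine Submodule.sum_mem _ fun J _ => ?_
      by_cases hJ : q ∈ D.face J
      · rw [rs_single_mem hJ]
        obtain ⟨κ, hκ⟩ := he2 J ⟨single q 1, rfl⟩
        rw [← hκ, LinearMap.comp_apply]
        intro q' hq'
        have h1 : D.Z q' = J := rs_mem_sp _ _ q' hq'
        have h2 : D.deg q' < n + 1 := rs_mem_sp_of_mem _ (tgt_mem h hΦ κ) q' hq'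
        refine ⟨by omega, ?_⟩
        rw [h1]
        exact hJ
      · rw [rs_single_notMem hJ, map_zero]
        exact Submodule.zero_mem _
    · rw [hs1 q hle]
      exact hΦ.1 q hle
  · have hqn : D.deg q ≤ n := by omega
    rw [hs1 q hqn]
    have hA := opA_single_mem (R := R) h i q
    rcases Nat.lt_or_ge n (D.deg q + D.e) with hlt | hle
    · have hqe : D.deg q + D.e = n + 1 := by omega
      rw [hu2 _ (sp_mono (fun q' hq' => hq'.1.trans hqe) hA)]
      have h1 : ∀ J : Finset P, e J (rs R (D.face J) (D.opA i (single q 1))) =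
          rs R {q' | D.Z q' = J} (D.opB i (Φ (single q 1)) - D.opA i (single q 1)) := by
        intro J
        have h2 := he1 J (single ⟨(i, q), hqe⟩ 1)
        rw [bc_comp, LinearMap.comp_apply, bc_rs, bc_single, one_smul, LinearMap.comp_apply] at h2
        have h3 : up R (D.src (n + 1) (single ⟨(i, q), hqe⟩ 1)) = D.opA i (single q 1) := by
          rw [opA_single]
          unfold src
          rw [Finsupp.linearCombination_single, one_smul]
        have h4 : D.tgt (n + 1) Φ (single ⟨(i, q), hqe⟩ 1) =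
            D.opB i (Φ (single q 1)) - D.opA i (single q 1) := by
          unfold tgt
          rw [Finsupp.linearCombination_single, one_smul]
        rw [h3, h4] at h2
        exact h2
      rw [Finset.sum_congr rfl fun J _ => h1 J, sum_parts]
      abel
    · rw [hu1 _ (sp_mono (fun q' hq' => ?_) hA), hΦ.2 i q hle]
      have h2 : D.deg q' = D.deg q + D.e := hq'.1
      change D.deg q' ≤ n
      omega

/-- compatible approximations -/
theorem exists_seq [CharZero k] [Fintype P] (h : D.Ok) :
    ∃ F : ℕ → (Q →₀ R) →ₗ[R] (Q →₀ R), (∀ n, D.Good n (F n)) ∧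
      ∀ n q, D.deg q ≤ n → F (n + 1) (single q 1) = F n (single q 1) := by
  have he := h.he
  have h0 : D.Good 0 (LinearMap.id : (Q →₀ R) →ₗ[R] (Q →₀ R)) := by
    refine ⟨fun q _ => ?_, fun i q hq => ?_⟩
    · rw [LinearMap.id_apply, sub_self]
      exact Submodule.zero_mem _
    · omega
  choose G hG1 hG2 using fun (n : ℕ) (Φ : {Φ : (Q →₀ R) →ₗ[R] (Q →₀ R) // D.Good n Φ}) =>
    step h Φ.2
  let F : ∀ n : ℕ, {Φ : (Q →₀ R) →ₗ[R] (Q →₀ R) // D.Good n Φ} :=
    fun n => Nat.rec ⟨LinearMap.id, h0⟩ (fun n Φ => ⟨G n Φ, hG1 n Φ⟩) n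
  exact ⟨fun n => (F n).1, fun n => (F n).2, fun n q hq => hG2 n (F n) q hq⟩

end

end Dat

end Pool.Agent.ND.H22
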