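import Pool.Agent.Helper22_ND.Kz
import Pool.Agent.NDR.Sys

/-!
# The two applications of the strictness lemma in the resonance block

`hat_sat` : saturation for the big cone (coordinates `x, z`); `phi_top` : top degree at the flat
face. Both from `GLStmt` (output of block G).
-/

set_option autoImplicit false
set_option linter.unusedSectionVars false
set_option linter.unusedVariables false

namespace Pool.Agent.ND.H22

open Finsupp
open Pool.Agent.NDR (opA opT opB pr InC pt Reg fac NdC GLStmt thm thm_eq Unit Gen lev sup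
  toL ih hat hatS hatC ex)
open Pool.Agent.Helper30_Simp (dot)

section gen

variable {k R τ : Type} [Fintype τ] [Field k] [CommRing R] [Algebra k R]

theorem poly_self (f : (τ → ℤ) →₀ k) : poly f.support f = f := by
  classical
  ext a
  rw [poly_apply]
  by_cases h : a ∈ f.support
  · rw [if_pos h]
  · rw [if_neg h]
    exact (Finsupp.notMem_support_iff.1 h).symm

/-- saturation for the region of a cone -/
theorem sat_gen [CharZero k] (hGL : GLAt τ k) (I P : Finset τ) (f : (τ → ℤ) →₀ k) (t : τ → R)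
    (p : τ → ℝ) (κ : τ → ℤ) (N : ℤ) (hp : ∀ i ∈ P, p i = 1) (hPI : P ⊆ I)
    (hA : ∀ a ∈ f.support, ∀ i ∈ P, 0 ≤ a i) (hN : 0 < N) (hκ0 : ∀ i, i ∉ I → κ i = 0)
    (hκ : ∀ a ∈ f.support, pr κ a = N) (hNd : NdC I f)
    (horth : ∀ J ⊆ P, ∀ v : τ → ℚ, (∀ i, i ∉ I → v i = 0) →
      (∀ a ∈ f.support, (∀ i ∈ J, a i = 0) → pr v a = 0) →
      ∀ m : τ → ℤ, InC I f.support (pt p m) → (∀ i ∈ J, m i = 0) →
        ∑ i ∈ I, algebraMap k R ((v i : ℚ) : k) * (((m i : ℤ) : R) + t i) = 0)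
    {x : (τ → ℤ) →₀ R} (hx : ∀ m ∈ x.support, InC I f.support (pt p m)) {r : R}
    (hr : ∀ a : R, r * a = 0 → a = 0) (η : τ → (τ → ℤ) →₀ R)
    (hη : ∀ v ∈ I, ∀ m ∈ (η v).support, InC I f.support (pt p m) ∧ m ∈ NDR.Fil P v)
    (hrel : r • x = ∑ v ∈ I, opB f.support (fun a => algebraMap k R (f a)) t v (η v)) :
    ∃ η' : τ → (τ → ℤ) →₀ R,
      (∀ v, ∀ m ∈ (η' v).support, InC I f.support (pt p m) ∧ m ∈ NDR.Fil P v) ∧
      x = ∑ v ∈ I, opB f.support (fun a => algebraMap k R (f a)) t v (η' v) := by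
  have hG := geo_mkS I P f.support f t p κ N hp hPI hA hN hκ0 hκ
  have hK := kz_mkS hGL I P f.support f t p κ N hp hPI hA
    (fun a ha => Finsupp.mem_support_iff.1 ha) hN hκ0 hκ (by rw [poly_self]; exact hNd) horth
  obtain ⟨η', h1, h2⟩ := Sys.sat hG hK (fun m hm => hx m (Finsupp.mem_support_iff.2 hm)) hr η
    (fun v hv m hm => by
      obtain ⟨h3, h4⟩ := hη v hv m (Finsupp.mem_support_iff.2 hm)
      exact ⟨h3, fun i hi hiv => (h4 i hi).2 hiv⟩) hrel
  refine ⟨η', fun v m hm => ?_, h2⟩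
  obtain ⟨h3, h4⟩ := h1 v m (Finsupp.mem_support_iff.1 hm)
  exact ⟨h3, fun i hi => ⟨hG.nonneg m h3 i hi, fun hiv => h4 i hi hiv⟩⟩

/-- top degree for the region of a cone -/
theorem top_gen [CharZero k] (hGL : GLAt τ k) (I P : Finset τ) (f : (τ → ℤ) →₀ k) (t : τ → R)
    (p : τ → ℝ) (κ : τ → ℤ) (N : ℤ) (hp : ∀ i ∈ P, p i = 1) (hPI : P ⊆ I)
    (hA : ∀ a ∈ f.support, ∀ i ∈ P, 0 ≤ a i) (hN : 0 < N) (hκ0 : ∀ i, i ∉ I → κ i = 0)
    (hκ : ∀ a ∈ f.support, pr κ a = N) (hNd : NdC I f)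
    (horth : ∀ J ⊆ P, ∀ v : τ → ℚ, (∀ i, i ∉ I → v i = 0) →
      (∀ a ∈ f.support, (∀ i ∈ J, a i = 0) → pr v a = 0) →
      ∀ m : τ → ℤ, InC I f.support (pt p m) → (∀ i ∈ J, m i = 0) →
        ∑ i ∈ I, algebraMap k R ((v i : ℚ) : k) * (((m i : ℤ) : R) + t i) = 0)
    {m0 : τ → ℤ} (hm0 : InC I f.support (pt p m0)) {r : R} (hr : r ≠ 0)
    (η : τ → (τ → ℤ) →₀ R)
    (hη : ∀ v ∈ I, ∀ m ∈ (η v).support, InC I f.support (pt p m) ∧ m ∈ NDR.Fil P v)
    (hrel : single m0 r = ∑ v ∈ I, opB f.support (fun a => algebraMap k R (f a)) t v (η v)) :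
    ∃ η' : τ → (τ → ℤ) →₀ k,
      (∀ v, ∀ m ∈ (η' v).support, InC I f.support (pt p m) ∧ m ∈ NDR.Fil P v ∧
        pr κ m + N = pr κ m0) ∧
      single m0 1 = ∑ v ∈ I, thm f v (η' v) := by
  have hG := geo_mkS I P f.support f t p κ N hp hPI hA hN hκ0 hκ
  have hK := kz_mkS hGL I P f.support f t p κ N hp hPI hA
    (fun a ha => Finsupp.mem_support_iff.1 ha) hN hκ0 hκ (by rw [poly_self]; exact hNd) horth
  obtain ⟨η', h1, h2⟩ := Sys.top hG hK hm0 hr η
    (fun v hv m hm => by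
      obtain ⟨h3, h4⟩ := hη v hv m (Finsupp.mem_support_iff.2 hm)
      exact ⟨h3, fun i hi hiv => (h4 i hi).2 hiv⟩) hrel
  refine ⟨η', fun v m hm => ?_, ?_⟩
  · obtain ⟨h3, h4, h5⟩ := h1 v m (Finsupp.mem_support_iff.1 hm)
    exact ⟨h3, fun i hi => ⟨hG.nonneg m h3 i hi, fun hiv => h4 i hi hiv⟩, h5⟩
  · rw [h2]
    exact Finset.sum_congr rfl fun v _ => (thm_eq f v (η' v)).symm

end gen

section orth

variable {σ : Type} [Fintype σ]

/-- a point of the cone with `q_J = 0` is orthogonal to every vector orthogonal to `A_J` -/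
theorem orth_point {τ : Type} [Fintype τ] {I J : Finset τ} {A : Finset (τ → ℤ)} {q : τ → ℝ}
    (hJ : J ⊆ I) (hA : ∀ a ∈ A, ∀ i ∈ J, 0 ≤ a i) (hq : ∀ i ∈ J, q i = 0) (hC : InC I A q)
    {v : τ → ℚ} (hv : ∀ i, i ∉ I → v i = 0)
    (hvA : ∀ a ∈ A, (∀ i ∈ J, a i = 0) → pr v a = 0) : ∑ i, (v i : ℝ) * q i = 0 := by
  classical
  obtain ⟨l, h1, h2⟩ := inC_face hJ hA hq hC
  rw [pr_cone (u := fun i => (v i : ℝ)) (fun i hi => by rw [hv i hi]; exact Rat.cast_zero) h2]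
  refine Finset.sum_eq_zero fun a ha => ?_
  rw [Finset.mem_filter] at ha
  have h3 := hvA a ha.1 ha.2
  have h4 : ∑ i, (v i : ℝ) * ((a i : ℤ) : ℝ) = ((pr v a : ℚ) : ℝ) := by
    unfold pr
    rw [Rat.cast_sum]
    refine Finset.sum_congr rfl fun i _ => ?_
    rw [Rat.cast_mul, Rat.cast_intCast]
  rw [h4, h3, Rat.cast_zero, mul_zero]

/-- **(II) of 3922**: a rational vector whose value at `p` is rational takes the same value at `1`
and at `p` -/
theorem dat_one {M : Finset (σ →₀ ℕ)} {κ : σ → ℕ} {N : ℕ} {P : Finset σ} {p : σ → ℝ}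
    (D : NDR.Dat M κ N P p) {v : σ → ℚ} (hv : ∀ i, i ∉ sup κ → v i = 0) {r : ℚ}
    (hr : ∑ i, (v i : ℝ) * p i = r) : ∑ i, (v i : ℝ) * (1 - p i) = 0 := by
  classical
  obtain ⟨w, hw1, hw2⟩ := D.gen v hv ⟨r, hr⟩
  have hw0 : ∀ i, i ∉ sup κ → w i = 0 := fun i hi => by
    by_contra h
    exact hi (hw1 i h).1
  -- `v · p = w · p`
  obtain ⟨l, hl1, hl2⟩ := D.inC
  have h1 : ∀ u : σ → ℚ, (∀ i, i ∉ sup κ → u i = 0) → ∑ i, (u i : ℝ) * p i =
      ∑ a ∈ NDR.toZ (lev M κ N), l a * ∑ i, (u i : ℝ) * ((a i : ℤ) : ℝ) := fun u hu =>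
    pr_cone (u := fun i => (u i : ℝ)) (fun i hi => by rw [hu i hi]; exact Rat.cast_zero) hl2
  have h2 : ∑ i, (v i : ℝ) * p i = ∑ i, (w i : ℝ) * p i := by
    rw [h1 v hv, h1 w hw0]
    refine Finset.sum_congr rfl fun a ha => ?_
    unfold NDR.toZ at ha
    rw [Finset.mem_image] at ha
    obtain ⟨α, hα, rfl⟩ := ha
    have h3 := hw2 α hα
    congr 1
    have h4 : ∀ u : σ → ℚ, ∑ i, (u i : ℝ) * ((((α i : ℕ) : ℤ) : ℤ) : ℝ) =
        ((∑ i, u i * (α i : ℚ) : ℚ) : ℝ) := by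
      intro u
      rw [Rat.cast_sum]
      refine Finset.sum_congr rfl fun i _ => ?_
      rw [Rat.cast_mul, Int.cast_natCast, Rat.cast_natCast]
    rw [h4 v, h4 w, h3]
  -- `w · p = ∑ w`
  have h3 : ∑ i, (w i : ℝ) * p i = ∑ i, (w i : ℝ) := by
    refine Finset.sum_congr rfl fun i _ => ?_
    by_cases hi : w i = 0
    · rw [hi, Rat.cast_zero, zero_mul]
    · rw [(hw1 i hi).2, mul_one]
  -- `∑ v = ∑ w`
  obtain ⟨l', hl'⟩ := D.flat
  have h4 : ∀ u : σ → ℚ, (∀ i, i ∉ sup κ → u i = 0) →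
      ∑ i, u i = ∑ α ∈ lev M κ N, l' α * ∑ i, u i * (α i : ℚ) := by
    intro u hu
    have h5 : ∀ i, u i = ∑ α ∈ lev M κ N, l' α * (u i * (α i : ℚ)) := by
      intro i
      by_cases hi : i ∈ sup κ
      · conv_lhs => rw [← mul_one (u i), ← hl' i hi, Finset.mul_sum]
        refine Finset.sum_congr rfl fun α _ => ?_
        ring
      · rw [hu i hi]
        refine (Finset.sum_eq_zero fun α _ => ?_).symm
        rw [zero_mul, mul_zero]
    rw [Finset.sum_congr rfl fun i _ => h5 i, Finset.sum_comm]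
    refine Finset.sum_congr rfl fun α _ => ?_
    rw [Finset.mul_sum]
  have h5 : ∑ i, v i = ∑ i, w i := by
    rw [h4 v hv, h4 w hw0]
    refine Finset.sum_congr rfl fun α hα => ?_
    rw [hw2 α hα]
  have h6 : ∑ i, (v i : ℝ) = ∑ i, (w i : ℝ) := by
    rw [← Rat.cast_sum, ← Rat.cast_sum, h5]
  have h7 : ∀ i, (v i : ℝ) * (1 - p i) = (v i : ℝ) - (v i : ℝ) * p i := fun i => by ring
  rw [Finset.sum_congr rfl fun i _ => h7 i, Finset.sum_sub_distrib, h2, h3, h6, sub_self]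

/-- the diagonal condition at the flat face -/
theorem orth_phi {M : Finset (σ →₀ ℕ)} {κ : σ → ℕ} {N : ℕ} {P : Finset σ} {p : σ → ℝ}
    (D : NDR.Dat M κ N P p) {J : Finset σ} (hJ : J ⊆ P) {m : σ → ℤ}
    (hm : InC (sup κ) (NDR.toZ (lev M κ N)) (pt p m)) (hmJ : ∀ i ∈ J, m i = 0) {v : σ → ℚ}
    (hv : ∀ i, i ∉ sup κ → v i = 0)
    (hvA : ∀ a ∈ NDR.toZ (lev M κ N), (∀ i ∈ J, a i = 0) → pr v a = 0) :
    ∑ i, v i * ((m i : ℤ) : ℚ) = 0 := by
  classical
  have h1 := orth_point (q := pt p m) (hJ.trans D.sub) (fun a ha i _ => by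
    unfold NDR.toZ at ha
    rw [Finset.mem_image] at ha
    obtain ⟨α, _, rfl⟩ := ha
    exact Int.natCast_nonneg _) (fun i hi => by
      unfold pt
      rw [D.one i (hJ hi), hmJ i hi]
      simp) hm hv hvA
  have h2 : ∑ i, (v i : ℝ) * p i = ((∑ i, v i * (1 - ((m i : ℤ) : ℚ)) : ℚ) : ℝ) := by
    rw [Rat.cast_sum]
    have h3 : ∀ i, (v i : ℝ) * p i = ((v i * (1 - ((m i : ℤ) : ℚ)) : ℚ) : ℝ) +
        (v i : ℝ) * pt p m i := by
      intro i
      unfold pt
      rw [Rat.cast_mul, Rat.cast_sub, Rat.cast_one, Rat.cast_intCast]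
      ring
    rw [Finset.sum_congr rfl fun i _ => h3 i, Finset.sum_add_distrib, h1, add_zero]
  have h3 := dat_one D hv h2
  have h4 : ∑ i, (v i : ℝ) * ((m i : ℤ) : ℝ) = 0 := by
    have h5 : ∀ i, (v i : ℝ) * ((m i : ℤ) : ℝ) =
        (v i : ℝ) * pt p m i + (v i : ℝ) * (1 - p i) := by
      intro i
      unfold pt
      ring
    rw [Finset.sum_congr rfl fun i _ => h5 i, Finset.sum_add_distrib, h1, h3, add_zero]
  have h5 : ((∑ i, v i * ((m i : ℤ) : ℚ) : ℚ) : ℝ) = 0 := by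
    rw [Rat.cast_sum, ← h4]
    refine Finset.sum_congr rfl fun i _ => ?_
    rw [Rat.cast_mul, Rat.cast_intCast]
  exact_mod_cast h5

/-- a rational vector has an integral multiple -/
theorem exists_int_mul {τ : Type} [Fintype τ] (v : τ → ℚ) :
    ∃ (d : ℤ) (l : τ → ℤ), d ≠ 0 ∧ ∀ i, (l i : ℚ) = (d : ℚ) * v i := by
  classical
  refine ⟨∏ j, ((v j).den : ℤ), fun i => (v i).num * ∏ j ∈ Finset.univ.erase i, ((v j).den : ℤ),
    ?_, fun i => ?_⟩
  · rw [Finset.prod_ne_zero_iff]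
    intro j _
    exact_mod_cast (v j).den_ne_zero
  · have h1 : (∏ j, ((v j).den : ℤ)) = ((v i).den : ℤ) * ∏ j ∈ Finset.univ.erase i, ((v j).den : ℤ) :=
      (Finset.mul_prod_erase Finset.univ _ (Finset.mem_univ i)).symm
    rw [h1]
    push_cast
    have h2 : ((v i).den : ℚ) * v i = (v i).num := Rat.den_mul_eq_num (v i)
    rw [← h2]
    ring

/-- the diagonal condition in the big cone: the coordinate `z` of the vector vanishes -/
theorem orth_hat {M : Finset (σ →₀ ℕ)} {κ : σ → ℕ} {N : ℕ} {P : Finset σ} {p : σ → ℝ}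
    (D : NDR.Dat M κ N P p) {ph : Option σ → ℝ} (hph : ∀ i, ph (some i) = p i)
    (hδ : ∀ l : Option σ → ℤ, l none ≠ 0 → ∀ n : ℤ, ∑ v, ((l v : ℤ) : ℝ) * ph v ≠ n)
    {A : Finset (Option σ → ℤ)} {J : Finset (Option σ)} (hJ : J ⊆ P.map Function.Embedding.some)
    (hA : ∀ a ∈ A, ∀ i ∈ J, 0 ≤ a i) {m : Option σ → ℤ} (hm : InC (ih (sup κ)) A (pt ph m))
    (hmJ : ∀ i ∈ J, m i = 0) {v : Option σ → ℚ} (hv : ∀ i, i ∉ ih (sup κ) → v i = 0)
    (hvA : ∀ a ∈ A, (∀ i ∈ J, a i = 0) → pr v a = 0) :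
    v none = 0 ∧ ∑ i, v (some i) * ((m (some i) : ℤ) : ℚ) = 0 := by
  classical
  have hJI : J ⊆ ih (sup κ) := by
    intro i hi
    obtain ⟨j, hj, rfl⟩ := Finset.mem_map.1 (hJ hi)
    unfold ih
    exact Finset.some_mem_insertNone.2 (D.sub hj)
  have h1 := orth_point (q := pt ph m) hJI hA (fun i hi => by
      obtain ⟨j, hj, rfl⟩ := Finset.mem_map.1 (hJ hi)
      change (((m (some j) : ℤ) : ℝ)) - 1 + ph (some j) = 0
      have h2 : m (some j) = 0 := hmJ _ hi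
      rw [hph, D.one j hj, h2]
      simp) hm hv hvA
  have hnone : v none = 0 := by
    by_contra h0
    obtain ⟨d, l, hd, hl⟩ := exists_int_mul v
    have hl0 : l none ≠ 0 := by
      intro h2
      have h3 := hl none
      rw [h2, Int.cast_zero] at h3
      rcases mul_eq_zero.1 h3.symm with h4 | h4
      · exact hd (by exact_mod_cast h4)
      · exact h0 h4
    refine hδ l hl0 (∑ i, l i * (1 - m i)) ?_
    have h2 : ∀ i, ((l i : ℤ) : ℝ) = (d : ℝ) * (v i : ℝ) := by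
      intro i
      have h3 := hl i
      have h4 : (((l i : ℤ) : ℚ) : ℝ) = (((d : ℚ) * v i : ℚ) : ℝ) := by rw [h3]
      rw [Rat.cast_intCast, Rat.cast_mul, Rat.cast_intCast] at h4
      exact h4
    have h3 : ∑ i, ((l i : ℤ) : ℝ) * pt ph m i = 0 := by
      have h4 : ∀ i, ((l i : ℤ) : ℝ) * pt ph m i = (d : ℝ) * ((v i : ℝ) * pt ph m i) := by
        intro i
        rw [h2]
        ring
      rw [Finset.sum_congr rfl fun i _ => h4 i, ← Finset.mul_sum, h1, mul_zero]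
    have h4 : ∀ i, ((l i : ℤ) : ℝ) * ph i =
        ((l i : ℤ) : ℝ) * pt ph m i + ((l i * (1 - m i) : ℤ) : ℝ) := by
      intro i
      unfold pt
      push_cast
      ring
    rw [Finset.sum_congr rfl fun i _ => h4 i, Finset.sum_add_distrib, h3, zero_add, Int.cast_sum]
  refine ⟨hnone, ?_⟩
  have hsum : ∀ g : Option σ → ℝ, ∑ i, g i = g none + ∑ i, g (some i) := fun g =>
    Fintype.sum_option g
  have hv' : ∀ i, i ∉ sup κ → v (some i) = 0 := by
    intro i hi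
    refine hv _ fun h2 => hi ?_
    unfold ih at h2
    exact Finset.some_mem_insertNone.1 h2
  have h2 : ∑ i, (v (some i) : ℝ) * (((m (some i) : ℤ) : ℝ) - 1 + p i) = 0 := by
    rw [hsum, hnone, Rat.cast_zero, zero_mul, zero_add] at h1
    rw [← h1]
    refine Finset.sum_congr rfl fun i _ => ?_
    unfold pt
    rw [hph]
  have h3 : ∑ i, (v (some i) : ℝ) * p i =
      ((∑ i, v (some i) * (1 - ((m (some i) : ℤ) : ℚ)) : ℚ) : ℝ) := by
    rw [Rat.cast_sum]
    have h4 : ∀ i, (v (some i) : ℝ) * p i =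
        ((v (some i) * (1 - ((m (some i) : ℤ) : ℚ)) : ℚ) : ℝ) +
        (v (some i) : ℝ) * (((m (some i) : ℤ) : ℝ) - 1 + p i) := by
      intro i
      rw [Rat.cast_mul, Rat.cast_sub, Rat.cast_one, Rat.cast_intCast]
      ring
    rw [Finset.sum_congr rfl fun i _ => h4 i, Finset.sum_add_distrib, h2, add_zero]
  have h4 := dat_one D (v := fun i => v (some i)) hv' h3
  have h5 : ((∑ i, v (some i) * ((m (some i) : ℤ) : ℚ) : ℚ) : ℝ) = 0 := by
    rw [Rat.cast_sum]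
    have h6 : ∀ i, ((v (some i) * ((m (some i) : ℤ) : ℚ) : ℚ) : ℝ) =
        (v (some i) : ℝ) * (((m (some i) : ℤ) : ℝ) - 1 + p i) + (v (some i) : ℝ) * (1 - p i) := by
      intro i
      rw [Rat.cast_mul, Rat.cast_intCast]
      ring
    rw [Finset.sum_congr rfl fun i _ => h6 i, Finset.sum_add_distrib, h2, zero_add]
    exact h4
  exact_mod_cast h5

end orth

theorem mem_hatS {σ K : Type} [Field K] (f' : MvPolynomial σ K) (a : Option σ → ℤ) :
    a ∈ hatS f' ↔ ∃ α ∈ f'.support, ex α = a := by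
  classical
  unfold hatS
  rw [Finset.mem_image]

section final

variable {σ : Type} [Fintype σ] {K R : Type} [Field K] [CommRing R] [Algebra K R]

theorem ex_injective : Function.Injective (ex (σ := σ)) := by
  intro α β h
  ext i
  have h1 := congrFun h (some i)
  change ((α i : ℕ) : ℤ) = ((β i : ℕ) : ℤ) at h1
  exact_mod_cast h1

theorem hat_ex (f' : MvPolynomial σ K) (α : σ →₀ ℕ) : hat f' (ex α) = MvPolynomial.coeff α f' := by
  classical
  unfold hat
  rw [Finsupp.finsetSum_apply]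
  by_cases h : α ∈ f'.support
  · rw [Finset.sum_eq_single_of_mem α h, Finsupp.single_eq_same]
    intro β _ hβ
    rw [Finsupp.single_apply, if_neg fun h1 => hβ (ex_injective h1)]
  · rw [MvPolynomial.notMem_support_iff.1 h]
    refine Finset.sum_eq_zero fun β hβ => ?_
    rw [Finsupp.single_apply, if_neg]
    intro h1
    exact h (ex_injective h1 ▸ hβ)

theorem hat_support (f' : MvPolynomial σ K) : (hat f').support = hatS f' := by
  classical
  ext a
  rw [Finsupp.mem_support_iff, mem_hatS]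
  constructor
  · intro h
    unfold hat at h
    rw [Finsupp.finsetSum_apply] at h
    obtain ⟨α, hα, h1⟩ := Finset.exists_ne_zero_of_sum_ne_zero h
    refine ⟨α, hα, ?_⟩
    by_contra h2
    rw [Finsupp.single_apply, if_neg h2] at h1
    exact h1 rfl
  · rintro ⟨α, hα, rfl⟩
    rw [hat_ex]
    exact MvPolynomial.mem_support_iff.1 hα

/-- **Saturation in the big cone.** -/
theorem hat_sat (hGL : GLStmt) [CharZero K] {M : Finset (σ →₀ ℕ)} {κ : σ → ℕ}
    {N : ℕ} {P : Finset σ} {p : σ → ℝ} (D : NDR.Dat M κ N P p) {ph : Option σ → ℝ}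
    (hph : ∀ i, ph (some i) = p i)
    (hδ : ∀ l : Option σ → ℤ, l none ≠ 0 → ∀ n : ℤ, ∑ v, ((l v : ℤ) : ℝ) * ph v ≠ n)
    (f' : MvPolynomial σ K) (hNd : NdC (ih (sup κ)) (hat f')) {t : Option σ → R}
    (ht : ∀ i, t (some i) = 0) {x : (Option σ → ℤ) →₀ R}
    (hx : ∀ m ∈ x.support, InC (ih (sup κ)) (hatS f') (pt ph m)) {r : R}
    (hr : ∀ a : R, r * a = 0 → a = 0) (η : Option σ → (Option σ → ℤ) →₀ R)
    (hη : ∀ v ∈ ih (sup κ), ∀ m ∈ (η v).support,
      InC (ih (sup κ)) (hatS f') (pt ph m) ∧ m ∈ NDR.Fil (P.map Function.Embedding.some) v)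
    (hrel : r • x = ∑ v ∈ ih (sup κ), opB (hatS f') (hatC R f') t v (η v)) :
    ∃ η' : Option σ → (Option σ → ℤ) →₀ R,
      (∀ v, ∀ m ∈ (η' v).support, InC (ih (sup κ)) (hatS f') (pt ph m) ∧
        m ∈ NDR.Fil (P.map Function.Embedding.some) v) ∧
      x = ∑ v ∈ ih (sup κ), opB (hatS f') (hatC R f') t v (η' v) := by
  classical
  have hs := hat_support f'
  have hnn : ∀ a ∈ (hat f').support, ∀ i ∈ P.map Function.Embedding.some, 0 ≤ a i := by
    intro a ha i hi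
    rw [hs] at ha
    rw [mem_hatS] at ha
    obtain ⟨α, _, rfl⟩ := ha
    obtain ⟨j, _, rfl⟩ := Finset.mem_map.1 hi
    exact Int.natCast_nonneg _
  have hnone : (none : Option σ) ∈ ih (sup κ) := by
    unfold ih
    exact Finset.none_mem_insertNone
  rw [← hs] at hx hη hrel ⊢
  refine sat_gen (glAt_of_GL hGL (Option σ) K) (ih (sup κ)) (P.map Function.Embedding.some)
    (hat f') t ph (Pi.single none 1) 1 (fun i hi => ?_) (fun i hi => ?_) hnn one_pos
    (fun i hi => ?_) (fun a ha => ?_) hNd (fun J hJ v hv hvA m hm hmJ => ?_) hx hr η hη hrel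
  · obtain ⟨j, hj, rfl⟩ := Finset.mem_map.1 hi
    exact (hph j).trans (D.one j hj)
  · obtain ⟨j, hj, rfl⟩ := Finset.mem_map.1 hi
    unfold ih
    exact Finset.some_mem_insertNone.2 (D.sub hj)
  · rw [Pi.single_apply, if_neg]
    rintro rfl
    exact hi hnone
  · rw [hs] at ha
    rw [mem_hatS] at ha
    obtain ⟨α, _, rfl⟩ := ha
    unfold pr
    rw [Finset.sum_eq_single none]
    · rw [Pi.single_eq_same]
      rfl
    · intro b _ hb
      rw [Pi.single_eq_of_ne hb, zero_mul]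
    · intro h
      exact absurd (Finset.mem_univ _) h
  · obtain ⟨h1, h2⟩ := orth_hat D hph hδ hJ (fun a ha i hi => hnn a ha i (hJ hi)) hm hmJ hv hvA
    unfold ih
    rw [Finset.sum_insertNone, h1, Rat.cast_zero, map_zero, zero_mul, zero_add]
    have h3 : ∀ i ∈ sup κ, algebraMap K R ((v (some i) : ℚ) : K) *
        (((m (some i) : ℤ) : R) + t (some i)) =
        algebraMap K R ((v (some i) * ((m (some i) : ℤ) : ℚ) : ℚ) : K) := by
      intro i _
      rw [ht, add_zero, Rat.cast_mul, Rat.cast_intCast, map_mul, map_intCast]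
    rw [Finset.sum_congr rfl h3, ← map_sum, ← Rat.cast_sum]
    have h4 : ∑ i ∈ sup κ, v (some i) * ((m (some i) : ℤ) : ℚ) = 0 := by
      rw [← h2]
      refine Finset.sum_subset (Finset.subset_univ _) fun i _ hi => ?_
      rw [hv (some i), zero_mul]
      intro h5
      unfold ih at h5
      exact hi (Finset.some_mem_insertNone.1 h5)
    rw [h4, Rat.cast_zero, map_zero]

/-- **Top degree at the flat face.** -/
theorem phi_top (hGL : GLStmt) [CharZero K] {M : Finset (σ →₀ ℕ)} {κ : σ → ℕ}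
    {N : ℕ} {P : Finset σ} {p : σ → ℝ} (D : NDR.Dat M κ N P p) (f : (σ → ℤ) →₀ K)
    (hf : f.support = NDR.toZ (lev M κ N)) (hNd : NdC (sup κ) f) {m0 : σ → ℤ}
    (hm0 : InC (sup κ) (NDR.toZ (lev M κ N)) (pt p m0)) {β : K} (hβ : β ≠ 0)
    (h : σ → (σ → ℤ) →₀ K)
    (hh : ∀ i ∈ sup κ, ∀ m ∈ (h i).support, InC (sup κ) (NDR.toZ (lev M κ N)) (pt p m) ∧
      m ∈ NDR.Fil P i)
    (hrel : single m0 β = ∑ i ∈ sup κ, opB (NDR.toZ (lev M κ N)) f 0 i (h i)) :
    ∃ h' : σ → (σ → ℤ) →₀ K,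
      (∀ i, ∀ m ∈ (h' i).support, InC (sup κ) (NDR.toZ (lev M κ N)) (pt p m) ∧ m ∈ NDR.Fil P i ∧
        ∑ i, (κ i : ℝ) * pt p m i + N = ∑ i, (κ i : ℝ) * pt p m0 i) ∧
      single m0 1 = ∑ i ∈ sup κ, thm f i (h' i) := by
  classical
  have hnn : ∀ a ∈ f.support, ∀ i ∈ P, 0 ≤ a i := by
    intro a ha i _
    rw [hf] at ha
    unfold NDR.toZ at ha
    rw [Finset.mem_image] at ha
    obtain ⟨α, _, rfl⟩ := ha
    exact Int.natCast_nonneg _
  rw [← hf] at hm0 hh hrel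
  obtain ⟨h', h1, h2⟩ := top_gen (R := K) (glAt_of_GL hGL σ K) (sup κ) P f (fun _ => 0) p
    (fun i => (κ i : ℤ)) N D.one D.sub hnn (by exact_mod_cast D.pos) (fun i hi => by
      unfold sup at hi
      rw [Finset.mem_filter] at hi
      push Not at hi
      exact_mod_cast hi (Finset.mem_univ i)) (fun a ha => by
      rw [hf] at ha
      unfold NDR.toZ at ha
      rw [Finset.mem_image] at ha
      obtain ⟨α, hα, rfl⟩ := ha
      unfold lev at hα
      rw [Finset.mem_filter] at hα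
      have h3 := hα.2
      unfold dot at h3
      unfold pr
      rw [← h3]
      push_cast
      rfl) hNd (fun J hJ v hv hvA m hm hmJ => by
      rw [hf] at hvA hm
      have h3 := orth_phi D hJ hm hmJ hv hvA
      have h4 : ∀ i ∈ sup κ, algebraMap K K ((v i : ℚ) : K) * (((m i : ℤ) : K) + 0) =
          algebraMap K K ((v i * ((m i : ℤ) : ℚ) : ℚ) : K) := by
        intro i _
        rw [add_zero, Rat.cast_mul, Rat.cast_intCast, map_mul, map_intCast]
      rw [Finset.sum_congr rfl h4, ← map_sum, ← Rat.cast_sum]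
      have h5 : ∑ i ∈ sup κ, v i * ((m i : ℤ) : ℚ) = 0 := by
        rw [← h3]
        refine Finset.sum_subset (Finset.subset_univ _) fun i _ hi => ?_
        rw [hv i hi, zero_mul]
      rw [h5, Rat.cast_zero, map_zero]) hm0 hβ h hh hrel
  refine ⟨h', fun i m hm => ?_, h2⟩
  obtain ⟨h3, h4, h5⟩ := h1 i m hm
  rw [hf] at h3
  refine ⟨h3, h4, ?_⟩
  have h6 : ∀ m : σ → ℤ, ∑ i, (κ i : ℝ) * pt p m i =
      ((pr (fun i => (κ i : ℤ)) m : ℤ) : ℝ) + ∑ i, (κ i : ℝ) * (p i - 1) := by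
    intro m
    unfold pr pt
    rw [Int.cast_sum, ← Finset.sum_add_distrib]
    refine Finset.sum_congr rfl fun i _ => ?_
    push_cast
    ring
  rw [h6, h6, ← h5]
  push_cast
  ring

end final

end Pool.Agent.ND.H22
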